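import Pool.Agent.X156.GL.Reg

/-!
# Popescu's evaluator `η'`: an unconditional limit formula by absolutely convergent sums over primes, for all orders
`r` and all abelian extensions, and the conjecture as a statement on the approach to a lattice

`k` is any number field (here: `K`), `𝔪 ≠ (0), (1)` an ideal, `R` a finite set of real embeddings (at which there is no
condition), `G` a finite abelian group, `c` a map from the ideals to `G` which is multiplicative on the ideals prime to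
`𝔪` and trivial on the `(x)`, `x ≡ 1` modulo `𝔪`, `x` positive at the real embeddings outside of `R`. By Artin's
reciprocity law the Artin symbol of an abelian extension is of this kind if `𝔪` is divisible by the conductor and the real
places in `R` split completely. `V` is a finite set of primes not dividing `𝔪` with `c(v) = 1`, which therefore also split
completely. `S` consists of the archimedean places, the primes dividing `𝔪` and those in `V`, and

`r = |R| + r₂ + |V|`

is the number of the places (the complex ones, `R`, `V`) that split completely; these are `v_1, …, v_r`. (All `S` with a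
finite place outside of `v_1, …, v_r` occur.) `∑_g Z_g(s) g⁻¹ ∈ ℂ[G]` is the equivariant `L`-function with the Euler
factors of `S` removed, `∑_g χ(g) Z_g(s) = L_S(s, χ)`. UNCONDITIONALLY:

1. The `Z_g` continue to functions analytic on `ℂ - {1}` and meromorphic at `1`, uniquely.
2. `Z_g` vanishes at `0` at least to the order `r`, `lim Z_g(s) / s^r = θ(g)` is real, so that
   `R(η') = ∑_χ L*(0, χ) e_χ̄ = ∑_g θ(g) g⁻¹`, and for a fixed `γ > π/2`, as `T → ∞`,

   `θ(g) = ∏_{v ∈ V} log Nv · (T e^(-Λ(γ)))^(|R| + r₂) [exp 𝒮(T)]_g + O(1/T)`,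
   `𝒮(T) = ∑_{v ∤ 𝔪} ∑_{j ≥ 1} exp(iγ j log Nv / T) / (j Γ(1 + j log Nv / T)) · c(v)^j`,

   where the series converges absolutely in `ℂ[G]`, `exp` is the exponential of `ℂ[G]` and `[x]_g` the coefficient of `g`.
3. Let `H` be the extension, with an isomorphism `art : G → Gal(H/K)`, `E` the group of `S`-units and
   `ℓ i = log|·|_{w_i}`. Then `η'` belongs to `ℚ ⋀^r E`, i.e. `R(η')` is a rational linear combination of the regulators
   `det(λ_j(u_i))`, `u_i ∈ E`, if and only if for some `N ≥ 1` and some integral combination `f` of these regulators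
   `N · (the sums in 2.) = f + O(1/T)`; if the group of these combinations is discrete, if and only if the sums
   times some `N ≥ 1` come arbitrarily close to this group for arbitrarily large `T`.
4. POPESCU'S CONJECTURE: let `𝓛` be a set of elements of `ℂ[G]` with finite bounded parts (the image under `R` of the
   `e'`-part of the lattice `Λ` in the conjecture) and `w` the number of roots of unity. Then `w R(η') ∈ 𝓛`, i.e.
   `w η' ∈ Λ`, if and only if `w` times the sums in 2. comes arbitrarily close to `𝓛` for arbitrarily large `T`, if and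
   only if it differs by `O(1/T)` from an element of `𝓛`.

Ingredients: Hecke's continuation with the gamma factors (`Pool.Agent.Y773`, `Y772`), the rotated law for series with
complex coefficients (`Pool.Agent.X287.CR`, `X287.ST`); see `Pool.Agent.X156.GL.Theta` for the primes in `V`.
-/

set_option autoImplicit false
set_option linter.unusedSectionVars false

open Filter Topology Asymptotics
open IsDedekindDomain NumberField Pool.Agent.X156.GL.Theta

namespace Pool.Agent.Results.MP_1322f0_nt.EvaluatorLimit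

/-- **Popescu's evaluators as limits, and the conjecture as approach to a lattice.** -/
theorem result (K : Type) [Field K] [NumberField K] (𝔪 : Ideal (𝓞 K)) (h0 : 𝔪 ≠ ⊥) (h1 : 𝔪 ≠ ⊤)
    (R : Finset (K →+* ℝ)) (G : Type) [CommGroup G] [Fintype G] (c : Ideal (𝓞 K) → G)
    (hc : IsClassMap 𝔪 R c) (V : Finset (Places 𝔪)) (hV : ∀ v ∈ V, c v.1.asIdeal = 1)
    (γ : ℝ) (hγ : Real.pi / 2 < γ) :
    -- 1. existence, uniqueness, absolute convergence
    (∃ Z : G → ℂ → ℂ, IsTheta 𝔪 c V [] Z) ∧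
    (∀ Z Z' : G → ℂ → ℂ, IsTheta 𝔪 c V [] Z → IsTheta 𝔪 c V [] Z' → ∀ g s, s ≠ 1 → Z g s = Z' g s) ∧
    (∀ (T : ℝ) (g : G), 0 < T → Summable fun x => ‖term 𝔪 c γ T g x‖) ∧
    -- 2. the limit formula
    ∃ θ : G → ℝ,
      (∀ Z : G → ℂ → ℂ, IsTheta 𝔪 c V [] Z → ∀ g, Tendsto (fun s : ℂ => Z g s /
        s ^ (R.card + InfinitePlace.nrComplexPlaces K + V.card)) (𝓝[≠] 0) (𝓝 (θ g : ℂ))) ∧
      (∀ g, (fun T : ℝ => approx 𝔪 c (R.card + InfinitePlace.nrComplexPlaces K) V [] γ T g - θ g) =O[atTop]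
        (fun T : ℝ => 1 / T)) ∧
      -- 3. rationality
      (∀ (H : Type) [Field H] [Algebra K H] (art : G ≃* Gal(H/K)) (r : ℕ) (ℓ : Fin r → H → ℝ) (E : Set H),
        (InQ (fun g => (θ g⁻¹ : ℂ)) (regSpan art ℓ E) ↔ ∃ N : ℕ, 1 ≤ N ∧ ∃ f ∈ regSpan art ℓ E, ∀ g,
          (fun T : ℝ => N * approx 𝔪 c (R.card + InfinitePlace.nrComplexPlaces K) V [] γ T g⁻¹ - f g)
            =O[atTop] (fun T : ℝ => 1 / T)) ∧
        ((∀ B : ℝ, {f : G → ℂ | f ∈ regSpan art ℓ E ∧ ∀ g, ‖f g‖ ≤ B}.Finite) →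
          (InQ (fun g => (θ g⁻¹ : ℂ)) (regSpan art ℓ E) ↔ ∃ N : ℕ, 1 ≤ N ∧ ∀ ε > 0, ∀ T₀ : ℝ, ∃ T ≥ T₀,
            ∃ f ∈ regSpan art ℓ E, ∀ g,
              ‖N * approx 𝔪 c (R.card + InfinitePlace.nrComplexPlaces K) V [] γ T g⁻¹ - f g‖ < ε))) ∧
      -- 4. the conjecture
      (∀ (w : ℕ) (𝓛 : Set (G → ℂ)), (∀ B : ℝ, {f : G → ℂ | f ∈ 𝓛 ∧ ∀ g, ‖f g‖ ≤ B}.Finite) →
        ((fun g => (w * θ g⁻¹ : ℂ)) ∈ 𝓛 ↔ ∀ ε > 0, ∀ T₀ : ℝ, ∃ T ≥ T₀, ∃ f ∈ 𝓛, ∀ g,
          ‖w * approx 𝔪 c (R.card + InfinitePlace.nrComplexPlaces K) V [] γ T g⁻¹ - f g‖ < ε) ∧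
        ((fun g => (w * θ g⁻¹ : ℂ)) ∈ 𝓛 ↔ ∃ f ∈ 𝓛, ∀ g,
          (fun T : ℝ => w * approx 𝔪 c (R.card + InfinitePlace.nrComplexPlaces K) V [] γ T g⁻¹ - f g)
            =O[atTop] (fun T : ℝ => 1 / T))) := by
  have hc' : Pool.Agent.X287.ST.IsClassMapR 𝔪 R c := ⟨hc.mul, hc.ray⟩
  obtain ⟨Z₀, hZ₀, -⟩ := Pool.Agent.X287.ST.exists_PZ_ord h1 h0 hc'
  have hT₀ := isTheta_of h1 hc' hV [] hZ₀
  obtain ⟨θ, hθ, hrate⟩ := main h1 h0 hc' hV [] hγ hT₀
  have hinv : ∀ g, (fun T : ℝ => approx 𝔪 c (R.card + InfinitePlace.nrComplexPlaces K) V [] γ T g⁻¹ -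
      (θ g⁻¹ : ℂ)) =O[atTop] (fun T : ℝ => 1 / T) := fun g => hrate g⁻¹
  refine ⟨⟨_, hT₀⟩, fun Z Z' h h' g s hs => isTheta_unique h h' g hs,
    fun T g hT => term_summable hc' γ hT g, θ, fun Z hZ g => ?_, hrate, fun H _ _ art r ℓ E => ?_,
    fun w 𝓛 h𝓛 => ?_⟩
  · refine (hθ g).congr' ?_
    have hev : ∀ᶠ s : ℂ in 𝓝 0, s ≠ 1 := isOpen_ne.mem_nhds (by norm_num)
    filter_upwards [hev.filter_mono nhdsWithin_le_nhds] with s hs
    rw [isTheta_unique hT₀ hZ g hs]
  · exact inQ_iff (θ := fun g => (θ g⁻¹ : ℂ)) hinv _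
  · have h2 := approach_iff (θ := fun g => (w * θ g⁻¹ : ℂ))
      (a := fun T g => w * approx 𝔪 c (R.card + InfinitePlace.nrComplexPlaces K) V [] γ T g⁻¹)
      (fun g => ((hinv g).const_mul_left (w : ℂ)).congr_left fun T => by ring) 𝓛
    exact ⟨h2.2 h𝓛, h2.1⟩

end Pool.Agent.Results.MP_1322f0_nt.EvaluatorLimit
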