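import Pool.Agent.X242.DR11
import Pool.Agent.X242.UW8

/-!
# Popescu's conjecture for higher order Stark evaluators and explicit elements of the rational group ring

`K'/K` is a finite abelian extension of number fields (`K'/K` is `K/k` in the problem) with group `G`, `c(𝔞)` in `G` the Artin
symbol of `𝔞`. By Artin's reciprocity law `c` is trivial on the principal ideals `(x)`, `x ≡ 1` modulo an ideal `𝔫` divisible
by the finite places which ramify, `x > 0` at the real places outside of the set `R` of those which split; let `T` be a finite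
set of primes prime to `𝔫` and `S` the set of the archimedean places, the primes dividing `𝔫` and those in `T`, and let
`r = |R| + r₂ + #{v ∈ T : c(v) = 1}`. Everything is proved for all maps `c` with these properties.

1. `θ(g) = lim s^{-r} ζ_S(g, s)` (`s → 0`) exists and is real, and `L_S(ψ⁻¹, s) / s^r → ∑ ψ(g)⁻¹ θ(g)` for all characters
   `ψ` of `G`. So in the problem `R(η') = ∑ θ(g) g⁻¹`, an element of `ℝ[G]` with the components
   `θ^(χ) = ∑ θ(g) χ(g)⁻¹`.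
2. With the universal rational weights `ρ_N(n)` of order `r` let `x_N(g) = ∑ ρ_N(N𝔞)`, over the `𝔞` prime to `𝔫` and `T` with
   `c(𝔞) = g`, a finite sum, and `X_N = ∑ x_N(g) g⁻¹ ∈ ℚ[G]`. Then `X_N = R(η') + O(1/N)`.
3. Let `η₀` be a generator of the `ℚ[G]e'`-module `ℚ ⋀^r E_S e'`, and `R₀(χ)` the components of `R(η₀)`; they are nonzero
   exactly for the `χ` in `Ĝ'`. Then `η' ∈ ℚ ⋀^r E_S` if and only if there is a `u ∈ ℚ[G]` with `χ(u) = θ^(χ) / R₀(χ)` for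
   all `χ` (read as `0` if `R₀(χ) = 0`), and this holds if and only if for some `M ≥ 1` the coefficients of the elements
   `M X_N / R(η₀)` come simultaneously arbitrarily close to integers for arbitrarily large `N`.
4. Let `Q` be the set of the vectors `(χ(u))_χ`, `u ∈ ℚ[G]e'` with `u η₀ ∈ Λ`: a lattice, so closed. Popescu's conjecture
   `w η' ∈ Λ` says that `(w θ^(χ) / R₀(χ))_χ ∈ Q`, and for every closed set `Q` and all `w` this is equivalent to: the vectors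
   `(w χ(X_N) / R₀(χ))_χ` come arbitrarily close to `Q` for arbitrarily large `N`.
-/

set_option autoImplicit false

namespace Pool.Agent.Results.MP_1322f0_nt.RationalElementsPopescu

open Filter Topology NumberField IsDedekindDomain Pool.Agent.X242.DR Asymptotics Pool.Agent.X242.GRA

section

variable {K : Type} [Field K] [NumberField K]

/-- The properties of the Artin map `c` of a layer: `𝔫 ≠ (0), (1)`, the primes in `T` do not divide `𝔫`, `c` is
multiplicative on the ideals prime to `𝔫` and trivial on the ideals `(x)` with `x ≡ 1` modulo `𝔫` and `x > 0` at the real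
embeddings which are not in `R`. -/
structure IsLayer {G : Type} [Group G] (𝔫 : Ideal (𝓞 K)) (T : Finset (HeightOneSpectrum (𝓞 K)))
    (R : Finset (K →+* ℝ)) (c : Ideal (𝓞 K) → G) : Prop where
  ne_bot : 𝔫 ≠ ⊥
  ne_top : 𝔫 ≠ ⊤
  coprime : ∀ v ∈ T, IsCoprime v.asIdeal 𝔫
  mul : ∀ I J : Ideal (𝓞 K), IsCoprime I 𝔫 → IsCoprime J 𝔫 → c (I * J) = c I * c J
  ray : ∀ x : 𝓞 K, x ≠ 0 → x - 1 ∈ 𝔫 → (∀ σ : K →+* ℝ, σ ∉ R → 0 < σ (x : K)) →
    c (Ideal.span {x}) = 1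

open Classical in
/-- The order `r`. -/
noncomputable def order {G : Type} [Group G] (T : Finset (HeightOneSpectrum (𝓞 K)))
    (R : Finset (K →+* ℝ)) (c : Ideal (𝓞 K) → G) : ℕ :=
  R.card + InfinitePlace.nrComplexPlaces K + (T.filter fun v => c v.asIdeal = 1).card

end


/-- `x_N` comes arbitrarily close to `Λ` for arbitrarily large `N`. -/
def ComesClose {I : Type} (x : ℕ → I → ℂ) (Λ : Set (I → ℂ)) : Prop :=
  ∀ ε : ℝ, 0 < ε → ∀ N₀ : ℕ, ∃ N ≥ N₀, ∃ y ∈ Λ, ∀ i, ‖x N i - y i‖ < ε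

/-- Convergence and closed sets. -/
theorem closed_iff {I : Type} [Finite I] {x : ℕ → I → ℂ} {θ : I → ℂ}
    (hx : ∀ i, Tendsto (fun N => x N i) atTop (𝓝 (θ i))) {Λ : Set (I → ℂ)} (hΛ : IsClosed Λ) :
    θ ∈ Λ ↔ ComesClose x Λ := by
  have := Fintype.ofFinite I
  have hnear : ∀ ε : ℝ, 0 < ε → ∀ᶠ N in atTop, ∀ i, ‖x N i - θ i‖ < ε := by
    intro ε hε
    refine eventually_all.2 fun i => ?_
    have h3 := (hx i).sub_const (θ i)
    rw [sub_self] at h3
    have h4 := h3.norm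
    rw [norm_zero] at h4
    exact h4.eventually (gt_mem_nhds hε)
  constructor
  · intro hθ ε hε N₀
    obtain ⟨N, hN1, hN2⟩ := ((hnear ε hε).and (eventually_ge_atTop N₀)).exists
    exact ⟨N, hN2, θ, hθ, hN1⟩
  · intro h1
    have hmem : θ ∈ closure Λ := by
      rw [Metric.mem_closure_iff]
      intro ε hε
      obtain ⟨N₀, hN₀⟩ := eventually_atTop.1 (hnear (ε / 2) (half_pos hε))
      obtain ⟨N, hN, y, hy, hyN⟩ := h1 (ε / 2) (half_pos hε) N₀
      refine ⟨y, hy, ?_⟩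
      rw [dist_pi_lt_iff hε]
      intro i
      rw [dist_eq_norm]
      have h3 := hN₀ N hN i
      have h4 := hyN i
      have h5 : θ i - y i = (x N i - y i) - (x N i - θ i) := by ring
      rw [h5]
      refine (norm_sub_le _ _).trans_lt ?_
      linarith
    rwa [hΛ.closure_eq] at hmem

section

variable {G : Type} [CommGroup G] [Fintype G]

/-- `X = ∑ x(g) g⁻¹ ∈ ℚ[G]` -/
noncomputable def star (x : G → ℚ) : MonoidAlgebra ℚ G := elem fun g => x g⁻¹

/-- The component `∑ θ(g) χ(g)⁻¹` at `χ` of `∑ θ(g) g⁻¹`. -/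
noncomputable def comp (θ : G → ℝ) (χ : Character G) : ℂ := ∑ g, (θ g : ℂ) * value χ g⁻¹

theorem ev_star (x : G → ℚ) (χ : Character G) : ev χ (star x) = ∑ g, (x g : ℂ) * value χ g⁻¹ := by
  unfold star
  rw [ev_elem, ← Equiv.sum_comp (Equiv.inv G)]
  refine Finset.sum_congr rfl fun g _ => ?_
  rw [Equiv.inv_apply, inv_inv]

theorem star_law {x : ℕ → G → ℚ} {θ : G → ℝ}
    (h : ∀ g, (fun N : ℕ => (x N g : ℝ) - θ g) =O[atTop] (fun N : ℕ => 1 / (N : ℝ))) (χ : Character G) :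
    (fun N : ℕ => ev χ (star (x N)) - comp θ χ) =O[atTop] (fun N : ℕ => 1 / (N : ℝ)) := by
  have h1 : (fun N : ℕ => ev χ (star (x N)) - comp θ χ) =
      fun N : ℕ => ∑ g, value χ g⁻¹ * ((((x N g : ℝ) - θ g : ℝ)) : ℂ) := by
    funext N
    rw [ev_star]
    unfold comp
    rw [← Finset.sum_sub_distrib]
    refine Finset.sum_congr rfl fun g _ => ?_
    push_cast
    ring
  rw [h1]
  have h2 : ∀ g, (fun N : ℕ => ((((x N g : ℝ) - θ g : ℝ)) : ℂ)) =O[atTop]
      (fun N : ℕ => 1 / (N : ℝ)) := by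
    intro g
    obtain ⟨C, hC⟩ := (h g).bound
    refine IsBigO.of_bound C ?_
    filter_upwards [hC] with N hN
    rwa [Complex.norm_real]
  exact IsBigO.fun_sum fun g _ => (h2 g).const_mul_left _

end

/-- **Popescu's conjecture and explicit elements of `ℚ[G]`.** -/
theorem result :
    -- 0. the weights exist
    ((∀ r : ℕ, {a : ℝ | Ck r a = 0}.Finite) ∧ ∀ (r : ℕ) (a : ℝ), ∃ ρ, IsRational r a ρ) ∧
    ∀ (K : Type) [Field K] [NumberField K] (G : Type) [CommGroup G] [Fintype G]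
      (𝔫 : Ideal (𝓞 K)) (T : Finset (HeightOneSpectrum (𝓞 K))) (R : Finset (K →+* ℝ))
      (c : Ideal (𝓞 K) → G), IsLayer 𝔫 T R c →
    ∃ θ : G → ℝ,
    -- 1. leading terms
    ((∃ ζ : G → ℂ → ℂ, PZT 𝔫 T c ζ) ∧ ∀ ζ : G → ℂ → ℂ, PZT 𝔫 T c ζ →
      ∀ g, Tendsto (fun s : ℂ => ζ g s / s ^ order T R c) (𝓝[≠] 0) (𝓝 (θ g))) ∧
    (∀ ψ : G →* ℂˣ, (∃ L : ℂ → ℂ, IsLT 𝔫 T c ψ L) ∧ ∀ L : ℂ → ℂ, IsLT 𝔫 T c ψ L →
      Tendsto (fun s : ℂ => L s / s ^ order T R c) (𝓝[≠] 0)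
        (𝓝 (∑ g, ((ψ g)⁻¹ : ℂˣ) * (θ g : ℂ)))) ∧
    ∀ a : ℝ, Real.pi / 2 < a → Ck (order T R c) a ≠ 0 →
    ∀ ρ : ℕ → ℕ →₀ ℚ, IsRational (order T R c) a ρ →
    -- 2. the approximations
    (∀ g, (fun N : ℕ => (combT 𝔫 T c (ρ N) g : ℝ) - θ g) =O[atTop] (fun N : ℕ => 1 / (N : ℝ))) ∧
    (∀ χ : Character G, (fun N : ℕ => ev χ (star (combT 𝔫 T c (ρ N))) - comp θ χ) =O[atTop]
      (fun N : ℕ => 1 / (N : ℝ))) ∧
    ∀ R₀ : Character G → ℂ,
    -- 3. rationality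
    ((∃ u : MonoidAlgebra ℚ G, ∀ χ, comp θ χ / R₀ χ = ev χ u) ↔
      ∃ M : ℕ, 1 ≤ M ∧ ∀ ε > 0, ∀ N₀ : ℕ, ∃ N ≥ N₀, ∃ n : G → ℤ, ∀ g,
        ‖M * coef (fun χ => ev χ (star (combT 𝔫 T c (ρ N))) / R₀ χ) g - n g‖ < ε) ∧
    -- 4. integrality
    (∀ (w : ℂ) (Q : Set (Character G → ℂ)), IsClosed Q →
      ((fun χ => w * (comp θ χ / R₀ χ)) ∈ Q ↔
        ComesClose (fun N χ => w * (ev χ (star (combT 𝔫 T c (ρ N))) / R₀ χ)) Q)) := by
  classical
  refine ⟨⟨rot_finite, exists_rational⟩, ?_⟩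
  intro K _ _ G _ _ 𝔫 T R c h
  obtain ⟨ζ, hζ, b, hb0⟩ := PZT_all (fun x y => mul_comm x y) h.ne_top h.ne_bot h.mul h.ray T h.coprime
  have hb : ∀ g, Tendsto (fun s : ℂ => ζ g s / s ^ order T R c) (𝓝[≠] 0) (𝓝 (b g)) := by
    intro g
    unfold order
    convert hb0 g
  -- a weight to see that the limits are real
  obtain ⟨a₀, ha₀, hC₀⟩ : ∃ a : ℝ, Real.pi / 2 < a ∧ Ck (order T R c) a ≠ 0 := by
    by_contra hcon
    push Not at hcon
    exact (Set.Ioi_infinite (Real.pi / 2)) ((rot_finite (order T R c)).subset fun a ha => hcon a ha)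
  obtain ⟨ρ₀, hρ₀⟩ := exists_rational (order T R c) a₀
  have hre : ∀ g, b g = ((b g).re : ℂ) := by
    intro g
    have h1 := (hζ.law h.ne_top (hb g) ha₀ hC₀ hρ₀).1
    apply Complex.ext <;> simp [h1]
  have hb' : ∀ g, Tendsto (fun s : ℂ => ζ g s / s ^ order T R c) (𝓝[≠] 0) (𝓝 (((b g).re : ℝ) : ℂ)) := by
    intro g
    rw [← hre g]
    exact hb g
  have hne1 : ∀ᶠ s : ℂ in 𝓝[≠] (0 : ℂ), s ≠ 1 := by
    have h2 : ∀ᶠ s : ℂ in 𝓝 0, s ≠ 1 := isOpen_ne.mem_nhds (by norm_num)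
    exact h2.filter_mono nhdsWithin_le_nhds
  refine ⟨fun g => (b g).re, ⟨⟨ζ, hζ⟩, fun ζ' hζ' g => ?_⟩, fun ψ => ⟨⟨_, hζ.toL ψ⟩, fun L hL => ?_⟩, ?_⟩
  · refine (hb' g).congr' ?_
    filter_upwards [hne1] with s hs
    rw [PZT_unique hζ hζ' g hs]
  · have h1 : Tendsto (fun s : ℂ => ∑ g, (((ψ g)⁻¹ : ℂˣ) : ℂ) * (ζ g s / s ^ order T R c)) (𝓝[≠] 0)
        (𝓝 (∑ g, ((ψ g)⁻¹ : ℂˣ) * (((b g).re : ℝ) : ℂ))) :=
      tendsto_finsetSum _ fun g _ => (hb' g).const_mul _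
    refine h1.congr' ?_
    filter_upwards [hne1] with s hs
    rw [← IsLT_unique (hζ.toL ψ) hL hs, Finset.sum_div]
    exact Finset.sum_congr rfl fun g _ => by ring
  · intro a ha hC ρ hρ
    have hlaw : ∀ g, (fun N : ℕ => (combT 𝔫 T c (ρ N) g : ℝ) - (b g).re) =O[atTop]
        (fun N : ℕ => 1 / (N : ℝ)) := fun g => (hζ.law h.ne_top (hb g) ha hC hρ).2
    have hst := fun χ : Character G => star_law hlaw χ
    refine ⟨hlaw, hst, fun R₀ => ?_⟩
    have hq : ∀ χ : Character G, (fun N : ℕ => ev χ (star (combT 𝔫 T c (ρ N))) / R₀ χ -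
        comp (fun g => (b g).re) χ / R₀ χ) =O[atTop] (fun N : ℕ => 1 / (N : ℝ)) := by
      intro χ
      refine ((hst χ).const_mul_left (R₀ χ)⁻¹).congr_left fun N => ?_
      rw [div_eq_mul_inv, div_eq_mul_inv]
      ring
    refine ⟨?_, fun w Q hQ => ?_⟩
    · rw [rational_iff]
      exact integral_iff hq
    · refine closed_iff (x := fun N (χ : Character G) => w * (ev χ (star (combT 𝔫 T c (ρ N))) / R₀ χ))
        (fun χ => ?_) hQ
      have h1 := (hq χ).trans_tendsto tendsto_one_div_atTop_nhds_zero_nat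
      have h2 := h1.add_const (comp (fun g => (b g).re) χ / R₀ χ)
      rw [zero_add] at h2
      have h3 : Tendsto (fun N : ℕ => ev χ (star (combT 𝔫 T c (ρ N))) / R₀ χ) atTop
          (𝓝 (comp (fun g => (b g).re) χ / R₀ χ)) := h2.congr fun N => by ring
      exact h3.const_mul w

end Pool.Agent.Results.MP_1322f0_nt.RationalElementsPopescu
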