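import Pool.Agent.X27.NR.Count

/-!
# Popescu's conjecture and the non-cyclic Sylow subgroups of the Galois group

Let `H / K` be a finite abelian extension of number fields with group `G`, `E = E_S(H)` the `S`-units, a
`ℤ[G]`-module, `v_1, …, v_r` places in `S` that split completely in `H`, `w_i | v_i`, `|S| ≥ r + 1`, and
`λ_i(u) = - ∑ log |σ u|_{w_i} σ⁻¹`, `Θ = ∑_χ L*(0, χ) e_χ̄ ∈ ℝ[G]` (all characters: `L*(0, χ) = 0` unless `χ ∈ Ĝ'`).
Popescu's conjecture for a field `H^D`, `D ≤ G`, and the same `S`, `v_i`, and the places below `w_i`, only involves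
these data:
* `E_S(H^D) = E^D`, and `ℤ[G/D] ≅ N_D ℤ[G] = ℤ[G]^D` by `ν : g D ↦ N_D g`, under which `Hom(E^D, ℤ[G/D])`
  becomes `Hom_{ℤ[G]}(E^D, ℤ[G])`. Since `ν(x) ν(y) = |D| ν(x y)` and `ν(x)` acts on `E^D` as `|D| x`, a determinant of
  size `r ≥ 1` and the evaluators `φ̃_{r-1} ∘ ⋯ ∘ φ̃_1` (with values in `E^D`) are both multiplied by `|D|^{r-1}`.
* as `v_i` splits completely, `ν` maps the `λ_i` of `H^D` to the `λ_i` of `H` on `E^D`, and by the functoriality of the
  `L`-functions it maps the `Θ` of `H^D` to `N_D Θ`.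
* `e'_D` is the sum of the `e_χ̄` which do not kill `Θ`, so that for `x ∈ ℚ ⋀^r E^D` we have `x = e'_D x` if and only if
  `a x = 0` for all `a ∈ ℤ[G]` with `a N_D Θ = 0`.
So with `W_D η'_D = y / m`, `y ∈ ⋀^r E^D`, the conjecture for `H^D` is the predicate `Popescu` below. For `D = ⊥` it is:
there are `m > 0` and `y ∈ ⋀^r_{ℤ[G]} E` with `R(y) = m W Θ`, `y = e' y` and such that for all `φ_1, …, φ_{r-1}` the
element `(φ_1 ∧ ⋯ ∧ φ_{r-1})(y)` is in `ℚ E` the `m`-th power of an `ε` for which `H(ε^{1/W}) / K` is abelian.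

Theorem. Let `p` be a prime number.
* If `E / D ≅ C_q × C_q` and the conjecture holds for the fields `H^{D'}`, `D < D' ≤ E`, then it holds for `H^D`
  up to the factor `q`, that is `q W_D η'_D ∈ Λ_D`.
* The conjecture for `H^D` is equivalent to its `p`-parts (it holds up to a factor prime to `p`) for all `p`.
* The `p`-part for all `H^D` follows from the `p`-part for those `H^D` whose group `G / D` has cyclic Sylow
  `q`-subgroups for all `q ≠ p`, that is `G / D ≅ P × C` with a `p`-group `P` and a cyclic group `C`.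
* The conjecture for all `H^D` follows from the conjecture for those `H^D` whose group has at most one
  non-cyclic Sylow subgroup.
* If the conjecture holds for all `H^D / K` which are cyclic then `c W_D η'_D ∈ Λ_D` for all `D`, where `c` is
  the product of the `|P| / p` for the non-cyclic Sylow `p`-subgroups `P` of `G / D`.
-/

set_option autoImplicit false

open Finset

namespace Pool.Agent.Results.MP_1322f0_nt.TwoNoncyclicSylows

open Pool.Agent.X27.NR (IsSquare between relation mem_between)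

/-! ### The evaluators and the regulator on exterior powers -/

section
variable {R M N : Type} [CommRing R] [AddCommGroup M] [Module R M] [AddCommGroup N] [Module R N]

/-- The evaluator `φ̃_s ∘ ⋯ ∘ φ̃_1` for the list `φ_1, …, φ_s`, where `φ̃` is the contraction
`m_1 ∧ ⋯ ∧ m_r ↦ ∑ (-1)^{i+1} φ(m_i) m_1 ∧ ⋯ m̂_i ⋯ ∧ m_r`. -/
noncomputable def eval (l : List (Module.Dual R M)) (y : ExteriorAlgebra R M) : ExteriorAlgebra R M :=
  l.foldl (fun x φ => CliffordAlgebra.contractLeft φ x) y

/-- the evaluator as a linear map -/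
noncomputable def ev : List (Module.Dual R M) → (ExteriorAlgebra R M →ₗ[R] ExteriorAlgebra R M)
  | [] => LinearMap.id
  | φ :: l => ev l ∘ₗ CliffordAlgebra.contractLeft φ

theorem eval_eq (l : List (Module.Dual R M)) (y : ExteriorAlgebra R M) : eval l y = ev l y := by
  induction l generalizing y with
  | nil => rfl
  | cons φ l ih => exact ih (CliffordAlgebra.contractLeft φ y)

theorem contract_map (f : M →ₗ[R] N) (d : Module.Dual R N) (x : ExteriorAlgebra R M) :
    CliffordAlgebra.contractLeft d (ExteriorAlgebra.map f x) =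
      ExteriorAlgebra.map f (CliffordAlgebra.contractLeft (d ∘ₗ f) x) := by
  induction x using CliffordAlgebra.left_induction with
  | algebraMap r =>
    rw [CliffordAlgebra.contractLeft_algebraMap, map_zero]
    rw [show (ExteriorAlgebra.map f) (algebraMap R (CliffordAlgebra 0) r) =
      algebraMap R (CliffordAlgebra 0) r from AlgHom.commutes _ _]
    rw [CliffordAlgebra.contractLeft_algebraMap]
  | add x y hx hy => rw [map_add, map_add, map_add, map_add, hx, hy]
  | ι_mul x m hx =>
    have h1 : (ExteriorAlgebra.map f) (CliffordAlgebra.ι 0 m * x) =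
        CliffordAlgebra.ι 0 (f m) * ExteriorAlgebra.map f x := by
      rw [map_mul]
      congr 1
      exact ExteriorAlgebra.map_apply_ι f m
    have h2 : (ExteriorAlgebra.map f) (CliffordAlgebra.ι 0 m * CliffordAlgebra.contractLeft (d ∘ₗ f) x) =
        CliffordAlgebra.ι 0 (f m) * ExteriorAlgebra.map f (CliffordAlgebra.contractLeft (d ∘ₗ f) x) := by
      rw [map_mul]
      congr 1
      exact ExteriorAlgebra.map_apply_ι f m
    rw [h1, CliffordAlgebra.contractLeft_ι_mul, CliffordAlgebra.contractLeft_ι_mul, map_sub, map_smul, h2,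
      ← hx]
    rfl

theorem ev_map (f : M →ₗ[R] N) (l : List (Module.Dual R N)) (x : ExteriorAlgebra R M) :
    ev l (ExteriorAlgebra.map f x) = ExteriorAlgebra.map f (ev (l.map fun d => d ∘ₗ f) x) := by
  induction l generalizing x with
  | nil => rfl
  | cons d l ih =>
    rw [List.map_cons]
    show ev l (CliffordAlgebra.contractLeft d (ExteriorAlgebra.map f x)) = _
    rw [contract_map, ih]
    rfl

theorem coe_map (r : ℕ) (f : M →ₗ[R] N) (x : ⋀[R]^r M) :
    (exteriorPower.map r f x : ExteriorAlgebra R N) = ExteriorAlgebra.map f x := by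
  have h : (Submodule.subtype _) ∘ₗ exteriorPower.map r f =
      (ExteriorAlgebra.map f).toLinearMap ∘ₗ (Submodule.subtype _) := by
    apply exteriorPower.linearMap_ext
    ext m
    simp
  exact LinearMap.congr_fun h x

variable {A : Type} [CommRing A] [Algebra R A] {r : ℕ}

/-- The alternating map `u ↦ det ℓ_j(u_i)`. -/
noncomputable def alt (ℓ : Fin r → (M →ₗ[R] A)) : M [⋀^Fin r]→ₗ[R] A where
  toFun u := Matrix.det (Matrix.of fun i j => ℓ j (u i))
  map_update_add' := by
    intro inst u k x y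
    obtain rfl : inst = instDecidableEqFin r := Subsingleton.elim _ _
    have e : ∀ z : M, (Matrix.of fun i j => ℓ j (Function.update u k z i)) =
        (Matrix.of fun i j => ℓ j (u i)).updateRow k (fun j => ℓ j z) := by
      intro z
      ext i j
      by_cases h : i = k
      · subst h; simp
      · simp [Matrix.updateRow_ne h, Function.update_of_ne h]
    rw [e, e, e]
    have : (fun j => ℓ j (x + y)) = (fun j => ℓ j x) + fun j => ℓ j y := by
      funext j; simp
    rw [this, Matrix.det_updateRow_add]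
  map_update_smul' := by
    intro inst u k c x
    obtain rfl : inst = instDecidableEqFin r := Subsingleton.elim _ _
    have e : ∀ z : M, (Matrix.of fun i j => ℓ j (Function.update u k z i)) =
        (Matrix.of fun i j => ℓ j (u i)).updateRow k (fun j => ℓ j z) := by
      intro z
      ext i j
      by_cases h : i = k
      · subst h; simp
      · simp [Matrix.updateRow_ne h, Function.update_of_ne h]
    rw [e, e]
    have : (fun j => ℓ j (c • x)) = (algebraMap R A c) • fun j => ℓ j x := by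
      funext j; simp [Algebra.smul_def]
    rw [this, Matrix.det_updateRow_smul, Algebra.smul_def]
  map_eq_zero_of_eq' := by
    intro u i j h hij
    refine Matrix.det_zero_of_row_eq hij ?_
    funext k
    simp [h]

/-- The regulator of `y ∈ ⋀^r M` is `θ`: `f(y) = θ` for the linear map `f : ⋀^r M → A`,
`u_1 ∧ ⋯ ∧ u_r ↦ det ℓ_j(u_i)`. -/
def RegIs (ℓ : Fin r → (M →ₗ[R] A)) (y : ⋀[R]^r M) (θ : A) : Prop :=
  ∀ f : ⋀[R]^r M →ₗ[R] A, (∀ u : Fin r → M, f (exteriorPower.ιMulti R r u) =
    Matrix.det (Matrix.of fun i j => ℓ j (u i))) → f y = θ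

/-- The regulator `⋀^r M → A`, `u_1 ∧ ⋯ ∧ u_r ↦ det ℓ_j(u_i)`. -/
noncomputable def reg (ℓ : Fin r → (M →ₗ[R] A)) : ⋀[R]^r M →ₗ[R] A :=
  exteriorPower.alternatingMapLinearEquiv (alt ℓ)

theorem regIs_iff (ℓ : Fin r → (M →ₗ[R] A)) (y : ⋀[R]^r M) (θ : A) : RegIs ℓ y θ ↔ reg ℓ y = θ := by
  have key : ∀ u : Fin r → M, reg ℓ (exteriorPower.ιMulti R r u) =
      Matrix.det (Matrix.of fun i j => ℓ j (u i)) := by
    intro u
    rw [reg, exteriorPower.alternatingMapLinearEquiv_apply_ιMulti]
    rfl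
  constructor
  · intro h
    exact h (reg ℓ) key
  · rintro rfl f hf
    have h : f = reg ℓ := by
      apply exteriorPower.linearMap_ext
      ext u
      rw [LinearMap.compAlternatingMap_apply, LinearMap.compAlternatingMap_apply, hf, key]
    rw [h]

theorem reg_map (f : M →ₗ[R] N) (ℓ : Fin r → (N →ₗ[R] A)) (x : ⋀[R]^r M) :
    reg ℓ (exteriorPower.map r f x) = reg (fun i => ℓ i ∘ₗ f) x := by
  have h : reg ℓ ∘ₗ exteriorPower.map r f = reg (fun i => ℓ i ∘ₗ f) := by
    apply exteriorPower.linearMap_ext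
    ext m
    simp only [reg, LinearMap.compAlternatingMap_apply, LinearMap.comp_apply,
      exteriorPower.map_apply_ιMulti, exteriorPower.alternatingMapLinearEquiv_apply_ιMulti]
    rfl
  exact LinearMap.congr_fun h x

end

section
variable {X Y : Type} [AddCommGroup X] [AddCommGroup Y]

/-- `a` and `b` have the same image in `ℚ ⊗ X`. -/
def SameInQ (a b : X) : Prop := ∃ n : ℕ, 0 < n ∧ n • a = n • b

theorem SameInQ.refl (a : X) : SameInQ a a := ⟨1, one_pos, rfl⟩

theorem SameInQ.add {a b a' b' : X} (h : SameInQ a b) (h' : SameInQ a' b') :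
    SameInQ (a + a') (b + b') := by
  obtain ⟨n, hn, h⟩ := h
  obtain ⟨n', hn', h'⟩ := h'
  refine ⟨n * n', Nat.mul_pos hn hn', ?_⟩
  rw [smul_add, smul_add, mul_smul n n' a', mul_smul n n' b', h', mul_comm n n', mul_smul n' n a,
    mul_smul n' n b, h]

theorem SameInQ.map {a b : X} (h : SameInQ a b) (f : X →+ Y) : SameInQ (f a) (f b) := by
  obtain ⟨n, hn, h⟩ := h
  exact ⟨n, hn, by rw [← map_nsmul, ← map_nsmul, h]⟩

theorem SameInQ.nsmul {a b : X} (h : SameInQ a b) (k : ℕ) : SameInQ (k • a) (k • b) := by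
  obtain ⟨n, hn, h⟩ := h
  exact ⟨n, hn, by rw [smul_comm n k, smul_comm n k, h]⟩

theorem SameInQ.neg {a b : X} (h : SameInQ a b) : SameInQ (-a) (-b) := by
  obtain ⟨n, hn, h⟩ := h
  exact ⟨n, hn, by rw [smul_neg, smul_neg, h]⟩

end

section
variable {R M : Type} [CommRing R] [AddCommGroup M] [Module R M] {A : Type} [CommRing A] [Algebra R A] {r : ℕ}

/-- The values of the evaluators at `y` are, in `ℚ ⊗ M`, in `C P`. -/
def EvalIn (P : Set M) (C : ℕ) (y : ⋀[R]^r M) : Prop :=
  ∀ φ : List (Module.Dual R M), φ.length + 1 = r →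
    ∃ ε ∈ P, SameInQ (eval φ y) (C • ExteriorAlgebra.ι R ε)

/-- `y` is killed by `S` in `ℚ ⊗ ⋀^r M`. -/
def Killed (S : Set R) (y : ⋀[R]^r M) : Prop :=
  ∀ a ∈ S, SameInQ (a • (y : ExteriorAlgebra R M)) 0

/-- There is `y / m ∈ ℚ ⋀^r M`, killed by `S`, with regulator `θ`, the evaluators of which have values in `C P`. -/
def HasElement (ℓ : Fin r → (M →ₗ[R] A)) (P : Set M) (S : Set R) (C : ℕ) (θ : A) : Prop :=
  ∃ (m : ℕ) (y : ⋀[R]^r M), 0 < m ∧ EvalIn P (m * C) y ∧ Killed S y ∧ RegIs ℓ y (m • θ)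

end

/-! ### Roots of unity, abelian extensions -/

section
variable {K : Type} [Field K]

/-- The roots of unity of a field `F`. -/
def mu (F : IntermediateField K (AlgebraicClosure K)) : Subgroup (AlgebraicClosure K)ˣ where
  carrier := {u | (u : AlgebraicClosure K) ∈ F ∧ IsOfFinOrder u}
  mul_mem' := by
    rintro a b ⟨h1, h2⟩ ⟨h3, h4⟩
    exact ⟨by rw [Units.val_mul]; exact mul_mem h1 h3, h2.mul h4⟩
  one_mem' := ⟨by rw [Units.val_one]; exact one_mem F, IsOfFinOrder.one⟩
  inv_mem' := by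
    rintro a ⟨h1, h2⟩
    exact ⟨by rw [Units.val_inv_eq_inv_val]; exact inv_mem h1, h2.inv⟩

/-- The number of roots of unity of a field. -/
noncomputable def W (F : IntermediateField K (AlgebraicClosure K)) : ℕ := Nat.card (mu F)

/-- `F(x^{1/W}) / K` is abelian, `W` the number of roots of unity of `F`. -/
def AbelianRoot (F : IntermediateField K (AlgebraicClosure K)) (x : AlgebraicClosure K) : Prop :=
  ∀ y : AlgebraicClosure K, y ^ W F = x →
    IsAbelianGalois K ↥(F ⊔ IntermediateField.adjoin K {y})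

variable {G : Type} [CommGroup G] {H : IntermediateField K (AlgebraicClosure K)}

/-- The subfield `H^D`. -/
noncomputable def fld (art : G ≃* Gal(H/K)) (D : Subgroup G) :
    IntermediateField K (AlgebraicClosure K) :=
  IntermediateField.lift (IntermediateField.fixedField (D.map art.toMonoidHom))

end

/-! ### The conjecture -/

section
variable {G : Type} [CommGroup G] (U : Type) [AddCommGroup U] [Module (MonoidAlgebra ℤ G) U]

variable {U} in
theorem inv_smul (c : MonoidAlgebra ℤ G) (x : U) (d : G) (h : MonoidAlgebra.of ℤ G d • x = x) :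
    MonoidAlgebra.of ℤ G d • (c • x) = c • x := by
  rw [smul_smul, mul_comm, ← smul_smul, h]

variable {U} in
theorem inv_add (a b : U) (d : G) (h : MonoidAlgebra.of ℤ G d • a = a)
    (h' : MonoidAlgebra.of ℤ G d • b = b) : MonoidAlgebra.of ℤ G d • (a + b) = a + b := by
  rw [smul_add, h, h']

/-- The submodule `U^D`. -/
def inv (D : Subgroup G) : Submodule (MonoidAlgebra ℤ G) U where
  carrier := {x | ∀ d ∈ D, MonoidAlgebra.of ℤ G d • x = x}
  add_mem' := fun {a b} ha hb d hd => inv_add a b d (ha d hd) (hb d hd)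
  zero_mem' := fun _ _ => smul_zero _
  smul_mem' := fun c x hx d hd => inv_smul c x d (hx d hd)

open Classical in
/-- The norm element `N_D = ∑ d`, `d ∈ D`. -/
noncomputable def nrm [Fintype G] (D : Subgroup G) : MonoidAlgebra ℤ G :=
  ∑ d ∈ univ.filter (fun d : G => d ∈ D), MonoidAlgebra.of ℤ G d

variable {U} [Fintype G] {K : Type} [Field K] {H : IntermediateField K (AlgebraicClosure K)}
variable {A : Type} [CommRing A] [Algebra (MonoidAlgebra ℤ G) A] {r : ℕ}

/-- The `ε` for which `H^D(ε^{1/W_D}) / K` is abelian. -/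
def abRoots (art : G ≃* Gal(H/K)) (ι : U →+ Additive Hˣ) (D : Subgroup G) : Set U :=
  {ε | AbelianRoot (fld art D) (((ι ε).toMul : Hˣ) : H)}

/-- The statement of the conjecture for `H^D` with `θ` in place of `N_D Θ`, for the element `W_D η' = y / m`:
1. the values of the evaluators at `y` are in `ℚ U^D` the elements `m |D|^{r-1} ε`, where `H^D(ε^{1/W_D}) / K` is abelian;
2. `y` is in `ℚ ⋀^r U^D` killed by all `a` which kill `N_D Θ`;
3. the regulator of `y` is `m |D|^{r-1} W_D θ`. -/
def Realised (art : G ≃* Gal(H/K)) (ι : U →+ Additive Hˣ) (ℓ : Fin r → (U →ₗ[MonoidAlgebra ℤ G] A))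
    (Θ : A) (D : Subgroup G) (θ : A) : Prop :=
  HasElement (fun i => ℓ i ∘ₗ (inv U D).subtype) {ε : inv U D | (ε : U) ∈ abRoots art ι D}
    {a : MonoidAlgebra ℤ G | a • (nrm D • Θ) = 0} (Nat.card D ^ (r - 1))
    ((Nat.card D ^ (r - 1) * W (fld art D)) • θ)

/-- The conjecture of Popescu for `H^D`. -/
def Popescu (art : G ≃* Gal(H/K)) (ι : U →+ Additive Hˣ) (ℓ : Fin r → (U →ₗ[MonoidAlgebra ℤ G] A))
    (Θ : A) (D : Subgroup G) : Prop :=
  Realised art ι ℓ Θ D (nrm D • Θ)

/-- The `p`-part of the conjecture of Popescu for `H^D`: it holds up to a factor which is prime to `p`. -/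
def PopescuAt (p : ℕ) (art : G ≃* Gal(H/K)) (ι : U →+ Additive Hˣ)
    (ℓ : Fin r → (U →ₗ[MonoidAlgebra ℤ G] A)) (Θ : A) (D : Subgroup G) : Prop :=
  ∃ k : ℕ, ¬ p ∣ k ∧ Realised art ι ℓ Θ D (k • (nrm D • Θ))

end

section
variable {G : Type} [CommGroup G]

/-- `G / D` contains a subgroup isomorphic to `C_q × C_q`: the Sylow `q`-subgroup of `G / D` is not cyclic. -/
def NoncyclicAt (D : Subgroup G) (q : ℕ) : Prop := ∃ E : Subgroup G, IsSquare D E q

/-- The Sylow `q`-subgroups of `G / D` are cyclic for `q ≠ p`. -/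
def CyclicOutside (p : ℕ) (D : Subgroup G) : Prop := ∀ q : ℕ, NoncyclicAt D q → q = p

/-- `G / D` has at most one non-cyclic Sylow subgroup. -/
def OneNoncyclic (D : Subgroup G) : Prop := ∀ q q' : ℕ, NoncyclicAt D q → NoncyclicAt D q' → q = q'

end

/-! ### Groups -/

section
variable {Q : Type} [CommGroup Q] [Finite Q]

theorem card_ker_pow (p : ℕ) :
    Nat.card (powMonoidHom p : Q →* Q).ker = (powMonoidHom p : Q →* Q).range.index := by
  have h1 := (powMonoidHom p : Q →* Q).range.card_mul_index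
  have h2 := (powMonoidHom p : Q →* Q).ker.card_mul_index
  rw [Subgroup.index_ker] at h2
  have h3 : 0 < Nat.card (powMonoidHom p : Q →* Q).range := Nat.card_pos
  have h4 : Nat.card (powMonoidHom p : Q →* Q).range * Nat.card (powMonoidHom p : Q →* Q).ker =
      Nat.card (powMonoidHom p : Q →* Q).range * (powMonoidHom p : Q →* Q).range.index := by
    rw [h1, mul_comm, h2]
  exact Nat.eq_of_mul_eq_mul_left h3 h4

/-- the `p`-torsion of a quotient is not larger -/
theorem card_ker_pow_le {Q' : Type} [CommGroup Q'] [Finite Q'] (f : Q →* Q')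
    (hf : Function.Surjective f) (p : ℕ) :
    Nat.card (powMonoidHom p : Q' →* Q').ker ∣ Nat.card (powMonoidHom p : Q →* Q).ker := by
  rw [card_ker_pow, card_ker_pow]
  have h : (powMonoidHom p : Q' →* Q').range = ((powMonoidHom p : Q →* Q).range).map f := by
    ext x
    rw [MonoidHom.mem_range, Subgroup.mem_map]
    constructor
    · rintro ⟨y, rfl⟩
      obtain ⟨z, rfl⟩ := hf y
      exact ⟨powMonoidHom p z, ⟨z, rfl⟩, by simp [powMonoidHom_apply, map_pow]⟩
    · rintro ⟨_, ⟨z, rfl⟩, rfl⟩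
      exact ⟨f z, by simp [powMonoidHom_apply, map_pow]⟩
  rw [h]
  exact Subgroup.index_map_dvd _ hf

/-- A finite abelian group whose `p`-torsion has at most `p` elements for all `p` is cyclic. -/
theorem isCyclic_of_torsion (h : ∀ p : ℕ, p.Prime → Nat.card (powMonoidHom p : Q →* Q).ker ≤ p) :
    IsCyclic Q := by
  classical
  have : Fintype Q := Fintype.ofFinite Q
  have key : ∀ n : ℕ, 0 < n → Nat.card (powMonoidHom n : Q →* Q).ker ≤ n := by
    intro n
    induction n using induction_on_primes with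
    | zero => intro h0; exact absurd h0 (lt_irrefl _)
    | one =>
      intro _
      have : (powMonoidHom 1 : Q →* Q).ker = ⊥ := by
        rw [eq_bot_iff]
        intro x hx
        rw [MonoidHom.mem_ker, powMonoidHom_apply, pow_one] at hx
        exact hx
      rw [this]
      simp
    | prime_mul p a hp ih =>
      intro hpa
      have ha : 0 < a := Nat.pos_of_mul_pos_left hpa |> fun _ => by
        rcases Nat.eq_zero_or_pos a with h0 | h0
        · rw [h0, mul_zero] at hpa; exact absurd hpa (lt_irrefl _)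
        · exact h0
      have ih := ih ha
      -- the map `x ↦ x ^ a` from the `p a`-torsion to the `p`-torsion
      let g : (powMonoidHom (p * a) : Q →* Q).ker →* (powMonoidHom p : Q →* Q).ker :=
        { toFun := fun x => ⟨(x : Q) ^ a, by
            have hx := x.2
            rw [MonoidHom.mem_ker, powMonoidHom_apply] at hx ⊢
            rw [← pow_mul, mul_comm a p]; exact hx⟩
          map_one' := Subtype.ext (one_pow a)
          map_mul' := fun x y => Subtype.ext (mul_pow (x : Q) (y : Q) a) }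
      have h1 : Nat.card g.ker ≤ Nat.card (powMonoidHom a : Q →* Q).ker := by
        refine Nat.card_le_card_of_injective
          (fun x : g.ker => (⟨((x : (powMonoidHom (p * a) : Q →* Q).ker) : Q), ?_⟩ :
            (powMonoidHom a : Q →* Q).ker)) ?_
        · have hx := x.2
          rw [MonoidHom.mem_ker] at hx ⊢
          exact congrArg Subtype.val hx
        · intro x y hxy
          have h3 := congrArg Subtype.val hxy
          exact Subtype.ext (Subtype.ext h3)
      have h2 := g.ker.card_mul_index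
      rw [Subgroup.index_ker] at h2
      have h3 : Nat.card g.range ≤ Nat.card (powMonoidHom p : Q →* Q).ker :=
        Subgroup.card_le_card_group _
      rw [← h2]
      calc Nat.card g.ker * Nat.card g.range ≤ a * p := Nat.mul_le_mul (h1.trans ih) (h3.trans (h p hp))
        _ = p * a := mul_comm _ _
  refine isCyclic_of_card_pow_eq_one_le fun n hn => ?_
  refine le_trans (le_of_eq ?_) (key n hn)
  rw [← Fintype.card_subtype, Nat.card_eq_fintype_card]
  exact Fintype.card_congr (Equiv.subtypeEquivRight fun x => by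
    rw [MonoidHom.mem_ker, powMonoidHom_apply])

end

section
variable {G : Type} [CommGroup G] [Finite G]

theorem card_mul_quot (D : Subgroup G) (P : Subgroup (G ⧸ D)) :
    Nat.card (P.comap (QuotientGroup.mk' D)) = Nat.card P * Nat.card D := by
  have h1 := Subgroup.index_comap_of_surjective P (QuotientGroup.mk'_surjective D)
  have h2 := P.card_mul_index
  have h3 := (P.comap (QuotientGroup.mk' D)).card_mul_index
  have h4 : Nat.card (G ⧸ D) * Nat.card D = Nat.card G :=
    (Subgroup.card_eq_card_quotient_mul_card_subgroup D).symm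
  rw [h1] at h3
  have h7 : 0 < P.index := Nat.pos_of_ne_zero Subgroup.index_ne_zero_of_finite
  have h8 : Nat.card (P.comap (QuotientGroup.mk' D)) * P.index = (Nat.card P * Nat.card D) * P.index := by
    rw [h3, ← h4, ← h2]
    ring
  exact Nat.eq_of_mul_eq_mul_right h7 h8

theorem noncyclicAt_iff {D : Subgroup G} {q : ℕ} (hq : q.Prime) :
    NoncyclicAt D q ↔ q ^ 2 ∣ Nat.card (powMonoidHom q : G ⧸ D →* G ⧸ D).ker := by
  constructor
  · rintro ⟨E, _, h1, h2, h3⟩
    have h4 : E.map (QuotientGroup.mk' D) ≤ (powMonoidHom q : G ⧸ D →* G ⧸ D).ker := by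
      rintro _ ⟨x, hx, rfl⟩
      rw [MonoidHom.mem_ker, powMonoidHom_apply, ← map_pow]
      exact (QuotientGroup.eq_one_iff _).2 (h3 x hx)
    have h5 : Nat.card (E.map (QuotientGroup.mk' D)) = q ^ 2 := by
      have h6 : (E.map (QuotientGroup.mk' D)).comap (QuotientGroup.mk' D) = E := by
        rw [Subgroup.comap_map_eq, QuotientGroup.ker_mk', sup_eq_left]
        exact h1
      have h7 := card_mul_quot D (E.map (QuotientGroup.mk' D))
      rw [h6, h2] at h7
      exact (Nat.eq_of_mul_eq_mul_right Nat.card_pos h7).symm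
    rw [← h5]
    exact Subgroup.card_dvd_of_le h4
  · intro h
    have hfact : Fact q.Prime := ⟨hq⟩
    obtain ⟨P', hP'⟩ := Sylow.exists_subgroup_card_pow_prime q h
    have h1 : Nat.card (P'.map (powMonoidHom q : G ⧸ D →* G ⧸ D).ker.subtype) = q ^ 2 := by
      rw [← hP']
      exact Nat.card_congr (P'.equivMapOfInjective _ (Subgroup.subtype_injective _)).toEquiv.symm
    refine ⟨(P'.map (powMonoidHom q : G ⧸ D →* G ⧸ D).ker.subtype).comap (QuotientGroup.mk' D),
      hq, ?_, ?_, ?_⟩
    · intro d hd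
      rw [Subgroup.mem_comap, QuotientGroup.mk'_apply, (QuotientGroup.eq_one_iff d).2 hd]
      exact one_mem _
    · rw [card_mul_quot, h1]
    · intro x hx
      rw [Subgroup.mem_comap] at hx
      obtain ⟨y, _, hy⟩ := hx
      have h2 := y.2
      rw [MonoidHom.mem_ker, powMonoidHom_apply] at h2
      have h3 : ((powMonoidHom q : G ⧸ D →* G ⧸ D).ker.subtype y) = y.1 := rfl
      rw [h3] at hy
      rw [hy, ← map_pow] at h2
      exact (QuotientGroup.eq_one_iff _).1 h2

theorem noncyclicAt_mono {D D' : Subgroup G} (h : D ≤ D') {q : ℕ} (hq : q.Prime)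
    (h' : NoncyclicAt D' q) : NoncyclicAt D q := by
  rw [noncyclicAt_iff hq] at h' ⊢
  refine h'.trans (card_ker_pow_le (QuotientGroup.map D D' (MonoidHom.id G) h) ?_ q)
  intro x
  obtain ⟨g, rfl⟩ := QuotientGroup.mk'_surjective D' x
  exact ⟨(g : G ⧸ D), rfl⟩

theorem isCyclic_quotient {D : Subgroup G} (h : ∀ q : ℕ, ¬ NoncyclicAt D q) : IsCyclic (G ⧸ D) := by
  refine isCyclic_of_torsion fun p hp => ?_
  by_contra hc
  push Not at hc
  refine h p ((noncyclicAt_iff hp).2 ?_)
  have hfact : Fact p.Prime := ⟨hp⟩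
  have h1 : IsPGroup p (powMonoidHom p : G ⧸ D →* G ⧸ D).ker := by
    intro x
    refine ⟨1, ?_⟩
    rw [pow_one]
    have h2 := x.2
    rw [MonoidHom.mem_ker, powMonoidHom_apply] at h2
    exact Subtype.ext h2
  obtain ⟨n, hn⟩ := IsPGroup.iff_card.1 h1
  rw [hn] at hc ⊢
  refine pow_dvd_pow p ?_
  by_contra h3
  push Not at h3
  have h4 : p ^ n ≤ p ^ 1 := Nat.pow_le_pow_right hp.pos (by omega)
  rw [pow_one] at h4
  omega

end

/-! ### Fields -/

section
variable {K : Type} [Field K]

/-- The maximal abelian extension, as the set of the elements on which the Galois group acts through a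
commutative quotient. -/
noncomputable def ab (K : Type) [Field K] : IntermediateField K (AlgebraicClosure K) where
  carrier := {x | ∀ σ τ : AlgebraicClosure K ≃ₐ[K] AlgebraicClosure K, σ (τ x) = τ (σ x)}
  mul_mem' := by
    intro a b ha hb σ τ
    rw [map_mul, map_mul, map_mul, map_mul, ha, hb]
  add_mem' := by
    intro a b ha hb σ τ
    rw [map_add, map_add, map_add, map_add, ha, hb]
  algebraMap_mem' := by
    intro r σ τ
    rw [AlgEquiv.commutes, AlgEquiv.commutes, AlgEquiv.commutes]
  inv_mem' := by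
    intro a ha σ τ
    rw [map_inv₀, map_inv₀, map_inv₀, map_inv₀, ha]

variable [NumberField K]

theorem ab_iff (M : IntermediateField K (AlgebraicClosure K)) : IsAbelianGalois K M ↔ M ≤ ab K := by
  constructor
  · intro h x hx σ τ
    have h1 : ∀ ρ : AlgebraicClosure K ≃ₐ[K] AlgebraicClosure K, ∀ y : M,
        ρ y = ((ρ.restrictNormal M y : M) : AlgebraicClosure K) :=
      fun ρ y => (AlgEquiv.restrictNormal_commutes ρ M y).symm
    have h2 := h1 τ ⟨x, hx⟩
    have h3 := h1 σ ⟨x, hx⟩
    simp only at h2 h3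
    rw [h2, h3, h1, h1]
    congr 1
    have h4 : σ.restrictNormal M * τ.restrictNormal M = τ.restrictNormal M * σ.restrictNormal M :=
      h.toIsMulCommutative.is_comm.comm _ _
    exact congrArg (fun ρ : M ≃ₐ[K] M => ρ ⟨x, hx⟩) h4
  · intro h
    have hnorm : Normal K M := by
      rw [IntermediateField.normal_iff_forall_map_le']
      rintro σ _ ⟨x, hx, rfl⟩
      have h1 : (σ x : AlgebraicClosure K) ∈ IntermediateField.fixedField M.fixingSubgroup := by
        rw [IntermediateField.mem_fixedField_iff]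
        intro τ hτ
        have h2 : τ x = x := (IntermediateField.mem_fixingSubgroup_iff M τ).1 hτ x hx
        rw [h hx τ σ, h2]
      rw [InfiniteGalois.fixedField_fixingSubgroup] at h1
      exact h1
    have hgal : IsGalois K M := ⟨⟩
    refine { hgal with is_comm := ⟨fun f g => ?_⟩ }
    obtain ⟨σ, rfl⟩ := AlgEquiv.restrictNormalHom_surjective (AlgebraicClosure K) f
    obtain ⟨τ, rfl⟩ := AlgEquiv.restrictNormalHom_surjective (AlgebraicClosure K) g
    rw [← map_mul, ← map_mul]
    ext x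
    have h1 : ∀ ρ : AlgebraicClosure K ≃ₐ[K] AlgebraicClosure K,
        (((AlgEquiv.restrictNormalHom M ρ) x : M) : AlgebraicClosure K) = ρ x :=
      fun ρ => AlgEquiv.restrictNormal_commutes ρ M x
    rw [h1, h1]
    exact h x.2 σ τ

variable {G : Type} [CommGroup G] {H : IntermediateField K (AlgebraicClosure K)}

omit [NumberField K] in
theorem mem_fld (art : G ≃* Gal(H/K)) {D : Subgroup G} {x : AlgebraicClosure K} :
    x ∈ fld art D ↔ ∃ hx : x ∈ H, ∀ d ∈ D, art d ⟨x, hx⟩ = ⟨x, hx⟩ := by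
  unfold fld
  constructor
  · intro h
    have hx : x ∈ H := IntermediateField.lift_le _ h
    refine ⟨hx, fun d hd => ?_⟩
    exact (IntermediateField.mem_fixedField_iff _ _).1
      ((IntermediateField.mem_lift ⟨x, hx⟩).1 h) (art d) ⟨d, hd, rfl⟩
  · rintro ⟨hx, h⟩
    refine (IntermediateField.mem_lift ⟨x, hx⟩).2 ((IntermediateField.mem_fixedField_iff _ _).2 ?_)
    rintro _ ⟨d, hd, rfl⟩
    exact h d hd

omit [NumberField K] in
theorem fld_anti (art : G ≃* Gal(H/K)) {D D' : Subgroup G} (h : D ≤ D') : fld art D' ≤ fld art D := by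
  intro x hx
  rw [mem_fld] at hx ⊢
  obtain ⟨h1, h2⟩ := hx
  exact ⟨h1, fun d hd => h2 d (h hd)⟩

omit [NumberField K] in
theorem fld_le (art : G ≃* Gal(H/K)) (D : Subgroup G) : fld art D ≤ H := by
  intro x hx
  rw [mem_fld] at hx
  exact hx.1

variable [FiniteDimensional K H] [IsGalois K H]

omit [FiniteDimensional K H] in
theorem fld_ab (art : G ≃* Gal(H/K)) (D : Subgroup G) : fld art D ≤ ab K := by
  refine (fld_le art D).trans ((ab_iff H).1 ?_)
  refine { (inferInstance : IsGalois K H) with is_comm := ⟨fun f g => ?_⟩ }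
  obtain ⟨a, rfl⟩ := art.surjective f
  obtain ⟨b, rfl⟩ := art.surjective g
  rw [← map_mul, ← map_mul, mul_comm]

variable (H) in
omit [IsGalois K H] in
theorem finite_mu : Finite (mu H) := by
  have : NumberField H := NumberField.of_module_finite K H
  have h1 := NumberField.Embeddings.finite_of_norm_le H ℂ 1
  have h2 : Finite {x : H | IsIntegral ℤ x ∧ ∀ φ : H →+* ℂ, ‖φ x‖ ≤ 1} := h1.to_subtype
  refine Finite.of_injective (β := {x : H | IsIntegral ℤ x ∧ ∀ φ : H →+* ℂ, ‖φ x‖ ≤ 1})
    (fun u => ⟨⟨(u.1 : AlgebraicClosure K), u.2.1⟩, ?_⟩) ?_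
  · obtain ⟨n, hn, hu⟩ := isOfFinOrder_iff_pow_eq_one.1 u.2.2
    have hpow : (⟨(u.1 : AlgebraicClosure K), u.2.1⟩ : H) ^ n = 1 := by
      apply Subtype.ext
      have := congrArg (fun w : (AlgebraicClosure K)ˣ => (w : AlgebraicClosure K)) hu
      simpa using this
    refine ⟨⟨Polynomial.X ^ n - 1, Polynomial.monic_X_pow_sub_C 1 hn.ne', ?_⟩, fun φ => ?_⟩
    · simp [hpow]
    · have h3 : φ (⟨(u.1 : AlgebraicClosure K), u.2.1⟩ : H) ^ n = 1 := by
        rw [← map_pow, hpow, map_one]
      exact (Complex.norm_eq_one_of_pow_eq_one h3 hn.ne').le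
  · intro a b h
    apply Subtype.ext
    apply Units.ext
    have := congrArg (fun x => (x.1 : AlgebraicClosure K)) h
    exact this

omit [NumberField K] in
theorem mu_mono {F F' : IntermediateField K (AlgebraicClosure K)} (h : F ≤ F') : mu F ≤ mu F' := by
  rintro u ⟨h1, h2⟩
  exact ⟨h h1, h2⟩

omit [IsGalois K H] in
theorem finite_mu' (art : G ≃* Gal(H/K)) (D : Subgroup G) : Finite (mu (fld art D)) := by
  have := finite_mu H
  exact Finite.of_injective _ (Subgroup.inclusion_injective (mu_mono (fld_le art D)))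

omit [IsGalois K H] in
theorem W_pos (art : G ≃* Gal(H/K)) (D : Subgroup G) : 0 < W (fld art D) := by
  have := finite_mu' art D
  exact Nat.card_pos

omit [FiniteDimensional K H] [IsGalois K H] [NumberField K] in
theorem W_dvd (art : G ≃* Gal(H/K)) {D D' : Subgroup G} (h : D ≤ D') :
    W (fld art D') ∣ W (fld art D) :=
  Subgroup.card_dvd_of_le (mu_mono (fld_anti art h))

omit [IsGalois K H] in
/-- All `W`-th roots of unity are in `H^D`. -/
theorem root_mem (art : G ≃* Gal(H/K)) (D : Subgroup G) {t : AlgebraicClosure K}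
    (ht : t ^ W (fld art D) = 1) : t ∈ fld art D := by
  have hfin := finite_mu' art D
  have hW := W_pos art D
  have hne : NeZero (W (fld art D)) := ⟨hW.ne'⟩
  have hle : mu (fld art D) ≤ rootsOfUnity (W (fld art D)) (AlgebraicClosure K) := by
    intro u hu
    rw [mem_rootsOfUnity]
    have h1 : (⟨u, hu⟩ : mu (fld art D)) ^ W (fld art D) = 1 := pow_card_eq_one'
    exact congrArg Subtype.val h1
  have hcard : Nat.card (rootsOfUnity (W (fld art D)) (AlgebraicClosure K)) ≤
      Nat.card (mu (fld art D)) := card_rootsOfUnity _ _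
  have heq := Subgroup.eq_of_le_of_card_ge hle hcard
  have ht0 : t ≠ 0 := by
    rintro rfl
    rw [zero_pow hW.ne'] at ht
    exact zero_ne_one ht
  have h2 : Units.mk0 t ht0 ∈ rootsOfUnity (W (fld art D)) (AlgebraicClosure K) := by
    rw [mem_rootsOfUnity]
    apply Units.ext
    simpa using ht
  rw [← heq] at h2
  exact h2.1

/-- It is enough to consider one root. -/
theorem abelianRoot_iff (art : G ≃* Gal(H/K)) (D : Subgroup G) {x : AlgebraicClosure K} (hx : x ≠ 0) :
    AbelianRoot (fld art D) x ↔ ∃ y : AlgebraicClosure K, y ^ W (fld art D) = x ∧ y ∈ ab K := by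
  have key : ∀ y : AlgebraicClosure K,
      IsAbelianGalois K ↥(fld art D ⊔ IntermediateField.adjoin K {y}) ↔ y ∈ ab K := by
    intro y
    rw [ab_iff, sup_le_iff, IntermediateField.adjoin_simple_le_iff]
    exact ⟨fun h => h.2, fun h => ⟨fld_ab art D, h⟩⟩
  constructor
  · intro h
    obtain ⟨y, hy⟩ := IsAlgClosed.exists_pow_nat_eq x (W_pos art D)
    exact ⟨y, hy, (key y).1 (h y hy)⟩
  · rintro ⟨z, hz, hza⟩ y hy
    refine (key y).2 ?_
    have hz0 : z ≠ 0 := by
      rintro rfl
      rw [zero_pow (W_pos art D).ne'] at hz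
      exact hx hz.symm
    have h1 : (y / z) ^ W (fld art D) = 1 := by
      rw [div_pow, hy, hz, div_self hx]
    have h2 := fld_ab art D (root_mem art D h1)
    have h3 : y = y / z * z := by field_simp
    rw [h3]
    exact mul_mem h2 hza

variable {U : Type} [AddCommGroup U]

/-- The elements `ε` for which `H^D(ε^{1/W}) / K` is abelian. -/
def abSub (art : G ≃* Gal(H/K)) (ι : U →+ Additive Hˣ) (D : Subgroup G) : AddSubgroup U where
  carrier := {ε | ∃ y : AlgebraicClosure K, y ^ W (fld art D) = (((ι ε).toMul : Hˣ) : H) ∧ y ∈ ab K}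
  zero_mem' := ⟨1, by rw [one_pow, map_zero]; rfl, one_mem _⟩
  add_mem' := by
    rintro a b ⟨y, h1, h2⟩ ⟨z, h3, h4⟩
    refine ⟨y * z, ?_, mul_mem h2 h4⟩
    rw [mul_pow, h1, h3, map_add]
    rfl
  neg_mem' := by
    rintro a ⟨y, h1, h2⟩
    refine ⟨y⁻¹, ?_, inv_mem h2⟩
    rw [inv_pow, h1, map_neg]
    simp

theorem mem_abSub (art : G ≃* Gal(H/K)) (ι : U →+ Additive Hˣ) (D : Subgroup G) (ε : U) :
    ε ∈ abSub art ι D ↔ AbelianRoot (fld art D) (((ι ε).toMul : Hˣ) : H) := by
  rw [abelianRoot_iff]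
  · rfl
  · intro h
    exact ((ι ε).toMul : Hˣ).ne_zero (Subtype.ext h)

omit [FiniteDimensional K H] [IsGalois K H] [NumberField K] in
theorem abSub_mono (art : G ≃* Gal(H/K)) (ι : U →+ Additive Hˣ) {D D' : Subgroup G} {w : ℕ}
    (hw : W (fld art D) = W (fld art D') * w) {ε : U} (h : ε ∈ abSub art ι D') :
    w • ε ∈ abSub art ι D := by
  obtain ⟨y, h1, h2⟩ := h
  refine ⟨y, ?_, h2⟩
  rw [hw, pow_mul, h1, map_nsmul]
  simp

end

/-! ### Norm elements -/

section
variable {G : Type} [CommGroup G] [Fintype G]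

theorem nrm_dvd {D D' : Subgroup G} (h : D ≤ D') : nrm D ∣ nrm D' := by
  classical
  unfold nrm
  rw [← sum_fiberwise (univ.filter fun d : G => d ∈ D') (fun d : G => (d : G ⧸ D))
    (fun d => MonoidAlgebra.of ℤ G d)]
  refine Finset.dvd_sum fun x _ => ?_
  by_cases hx : ∃ e ∈ D', (e : G ⧸ D) = x
  · obtain ⟨e, he, rfl⟩ := hx
    refine ⟨MonoidAlgebra.of ℤ G e, ?_⟩
    rw [sum_mul]
    refine (sum_bij (fun d _ => d * e) ?_ ?_ ?_ ?_).symm
    · intro d hd
      rw [mem_filter] at hd
      rw [mem_filter, mem_filter]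
      refine ⟨⟨mem_univ _, mul_mem (h hd.2) he⟩, ?_⟩
      rw [eq_comm, QuotientGroup.eq]
      have : e⁻¹ * (d * e) = d := by rw [mul_comm d e, inv_mul_cancel_left]
      rw [this]
      exact hd.2
    · intro a _ b _ hab
      exact mul_right_cancel hab
    · intro b hb
      rw [mem_filter, mem_filter] at hb
      refine ⟨b * e⁻¹, ?_, by rw [inv_mul_cancel_right]⟩
      rw [mem_filter]
      refine ⟨mem_univ _, ?_⟩
      have h1 := hb.2
      rw [eq_comm, QuotientGroup.eq] at h1
      rwa [mul_comm] at h1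
    · intro a _
      rw [map_mul]
  · have : (univ.filter fun d : G => d ∈ D').filter (fun d : G => (d : G ⧸ D) = x) = ∅ := by
      rw [filter_eq_empty_iff]
      intro d hd hdx
      rw [mem_filter] at hd
      exact hx ⟨d, hd.2, hdx⟩
    rw [this, sum_empty]
    exact dvd_zero _

theorem card_split {D D' : Subgroup G} (h : D ≤ D') : ∃ c : ℕ, 0 < c ∧ Nat.card D' = c * Nat.card D := by
  obtain ⟨c, hc⟩ := Subgroup.card_dvd_of_le h
  refine ⟨c, ?_, by rw [hc, mul_comm]⟩
  rcases Nat.eq_zero_or_pos c with h0 | h0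
  · rw [h0, mul_zero] at hc
    exact absurd hc Nat.card_pos.ne'
  · exact h0

omit [Fintype G] in
theorem lt_of_card {D D' : Subgroup G} (h1 : D ≤ D') (h2 : Nat.card D' ≠ Nat.card D) : D < D' := by
  refine lt_of_le_of_ne h1 ?_
  rintro rfl
  exact h2 rfl

variable {A : Type} [AddCommGroup A] [Module (MonoidAlgebra ℤ G) A]

/-- the relation for the norm elements -/
theorem norm_relation (Θ : A) {D E : Subgroup G} {q : ℕ} (hsq : IsSquare D E q) (J : AddSubgroup A) (c : ℕ)
    (h : ∀ D' : Subgroup G, D < D' → D' ≤ E → q ∣ Nat.card D' / Nat.card D → c • (nrm D' • Θ) ∈ J) :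
    (c * q) • (nrm D • Θ) ∈ J := by
  classical
  have : Fintype (Subgroup G) := Fintype.ofFinite _
  have hD0 : 0 < Nat.card D := Nat.card_pos
  have key : q • (nrm D • Θ) + nrm E • Θ = ∑ D' ∈ between D E q, nrm D' • Θ := by
    rw [← sum_smul, ← smul_assoc, ← add_smul]
    congr 1
    unfold nrm
    convert (relation hsq (fun e => MonoidAlgebra.of ℤ G e)).symm
  have h2 : (c * q) • (nrm D • Θ) = (∑ D' ∈ between D E q, c • (nrm D' • Θ)) - c • (nrm E • Θ) := by
    rw [← smul_sum, ← smul_sub, ← key, mul_smul]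
    congr 1
    abel
  rw [h2]
  obtain ⟨hq, hDE, hc, hp⟩ := hsq
  have hq2 : 2 ≤ q := hq.two_le
  refine sub_mem (sum_mem fun D' hD' => ?_) ?_
  · obtain ⟨h3, h4, h5⟩ := mem_between.1 hD'
    refine h D' (lt_of_card h3 ?_) h4 ?_
    · rw [h5]
      intro h6
      have h7 := Nat.mul_le_mul_right (Nat.card D) hq2
      omega
    · rw [h5, Nat.mul_div_cancel _ hD0]
  · refine h E (lt_of_card hDE ?_) le_rfl ?_
    · rw [hc]
      intro h6
      have h7 := Nat.mul_le_mul_right (Nat.card D) (show 4 ≤ q ^ 2 by nlinarith)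
      omega
    · rw [hc, Nat.mul_div_cancel _ hD0]
      exact dvd_pow_self q two_ne_zero

theorem bezout (J : AddSubgroup A) {θ : A} (h : ∀ p : ℕ, p.Prime → ∃ k : ℕ, ¬ p ∣ k ∧ k • θ ∈ J) :
    θ ∈ J := by
  classical
  have hex : ∃ n : ℕ, 0 < n ∧ n • θ ∈ J := by
    obtain ⟨k, h1, h2⟩ := h 2 Nat.prime_two
    refine ⟨k, Nat.pos_of_ne_zero ?_, h2⟩
    rintro rfl
    exact h1 (dvd_zero _)
  have hn := Nat.find_spec hex
  have hmin := fun m hm => Nat.find_min hex (m := m) hm
  set n := Nat.find hex with hndef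
  by_cases h1 : n = 1
  · have h2 := hn.2
    rw [h1, one_smul] at h2
    exact h2
  · exfalso
    obtain ⟨k, h2, h3⟩ := h n.minFac (Nat.minFac_prime h1)
    have hg : (Nat.gcd n k) • θ ∈ J := by
      have h4 := Nat.gcd_eq_gcd_ab n k
      have h5 : ((Nat.gcd n k : ℕ) : ℤ) • θ ∈ J := by
        rw [h4, add_smul, mul_comm (n : ℤ), mul_comm (k : ℤ), mul_smul, mul_smul]
        refine add_mem (zsmul_mem ?_ _) (zsmul_mem ?_ _)
        · rw [natCast_zsmul]; exact hn.2
        · rw [natCast_zsmul]; exact h3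
      rwa [natCast_zsmul] at h5
    have h4 : Nat.gcd n k < n := by
      refine lt_of_le_of_ne (Nat.gcd_le_left _ hn.1) ?_
      intro h5
      exact h2 ((Nat.minFac_dvd n).trans (Nat.gcd_eq_left_iff_dvd.1 h5))
    exact hmin _ h4 ⟨Nat.gcd_pos_of_pos_left _ hn.1, hg⟩

end

/-! ### The elements for which the statement holds -/

section
variable {G : Type} [CommGroup G] [Fintype G] {U : Type} [AddCommGroup U] [Module (MonoidAlgebra ℤ G) U]
variable {K : Type} [Field K] {H : IntermediateField K (AlgebraicClosure K)}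
variable {A : Type} [CommRing A] [Algebra (MonoidAlgebra ℤ G) A] {r : ℕ}

omit [Fintype G] in
theorem inv_anti {D D' : Subgroup G} (h : D ≤ D') : inv U D' ≤ inv U D :=
  fun _ hx d hd => hx d (h hd)

variable [NumberField K] [FiniteDimensional K H] [IsGalois K H]
variable (art : G ≃* Gal(H/K)) (ι : U →+ Additive Hˣ) (ℓ : Fin r → (U →ₗ[MonoidAlgebra ℤ G] A)) (Θ : A)

/-- the statement with `abSub`, `ev` and `reg` -/
theorem realised_iff (D : Subgroup G) (θ : A) : Realised art ι ℓ Θ D θ ↔
    ∃ (m : ℕ) (y : ⋀[MonoidAlgebra ℤ G]^r (inv U D)), 0 < m ∧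
    (∀ φ : List (Module.Dual (MonoidAlgebra ℤ G) (inv U D)), φ.length + 1 = r → ∃ ε : inv U D,
      (ε : U) ∈ abSub art ι D ∧
      SameInQ (ev φ y) ((m * Nat.card D ^ (r - 1)) • ExteriorAlgebra.ι (MonoidAlgebra ℤ G) ε)) ∧
    (∀ a : MonoidAlgebra ℤ G, a • (nrm D • Θ) = 0 →
      SameInQ (a • (y : ExteriorAlgebra (MonoidAlgebra ℤ G) (inv U D))) 0) ∧
    reg (fun i => ℓ i ∘ₗ (inv U D).subtype) y =
      (m * Nat.card D ^ (r - 1) * W (fld art D)) • θ := by
  unfold Realised HasElement EvalIn Killed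
  refine exists_congr fun m => exists_congr fun y => and_congr Iff.rfl (and_congr ?_ (and_congr ?_ ?_))
  · refine forall_congr' fun φ => forall_congr' fun _ => exists_congr fun ε => ?_
    rw [eval_eq, mem_abSub]
    rfl
  · exact Iff.rfl
  · rw [regIs_iff, smul_smul, mul_assoc]

/-- The elements `θ` for which the statement holds. -/
def grp (D : Subgroup G) : AddSubgroup A where
  carrier := {θ | Realised art ι ℓ Θ D θ}
  zero_mem' := by
    show Realised art ι ℓ Θ D 0
    rw [realised_iff]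
    refine ⟨1, 0, one_pos, fun φ _ => ⟨0, zero_mem _, ?_⟩, fun a _ => ?_, ?_⟩
    · rw [ZeroMemClass.coe_zero, map_zero, map_zero, smul_zero]
      exact SameInQ.refl _
    · rw [ZeroMemClass.coe_zero, smul_zero]
      exact SameInQ.refl _
    · rw [map_zero, smul_zero]
  add_mem' := by
    intro θ θ' hθ hθ'
    change Realised art ι ℓ Θ D θ at hθ
    change Realised art ι ℓ Θ D θ' at hθ'
    show Realised art ι ℓ Θ D (θ + θ')
    rw [realised_iff] at hθ hθ' ⊢
    obtain ⟨m, y, h1, h2, h3, h4⟩ := hθ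
    obtain ⟨m', y', h1', h2', h3', h4'⟩ := hθ'
    refine ⟨m * m', m' • y + m • y', Nat.mul_pos h1 h1', fun φ hφ => ?_, fun a ha => ?_, ?_⟩
    · obtain ⟨ε, e1, e2⟩ := h2 φ hφ
      obtain ⟨ε', e1', e2'⟩ := h2' φ hφ
      refine ⟨ε + ε', add_mem e1 e1', ?_⟩
      have h5 : ev φ ((m' • y + m • y' : ⋀[MonoidAlgebra ℤ G]^r (inv U D)) :
          ExteriorAlgebra (MonoidAlgebra ℤ G) (inv U D)) = m' • ev φ y + m • ev φ y' := by
        rw [Submodule.coe_add, Submodule.coe_smul_of_tower, Submodule.coe_smul_of_tower, map_add,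
          map_nsmul, map_nsmul]
      have h6 : (m * m' * Nat.card D ^ (r - 1)) • ExteriorAlgebra.ι (MonoidAlgebra ℤ G) (ε + ε') =
          m' • ((m * Nat.card D ^ (r - 1)) • ExteriorAlgebra.ι (MonoidAlgebra ℤ G) ε) +
          m • ((m' * Nat.card D ^ (r - 1)) • ExteriorAlgebra.ι (MonoidAlgebra ℤ G) ε') := by
        rw [map_add, smul_add, smul_smul, smul_smul]
        congr 2
        · ring
        · ring
      rw [h5, h6]
      exact (e2.nsmul m').add (e2'.nsmul m)
    · have h5 : a • ((m' • y + m • y' : ⋀[MonoidAlgebra ℤ G]^r (inv U D)) :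
          ExteriorAlgebra (MonoidAlgebra ℤ G) (inv U D)) =
          m' • (a • (y : ExteriorAlgebra (MonoidAlgebra ℤ G) (inv U D))) +
          m • (a • (y' : ExteriorAlgebra (MonoidAlgebra ℤ G) (inv U D))) := by
        rw [Submodule.coe_add, Submodule.coe_smul_of_tower, Submodule.coe_smul_of_tower, smul_add,
          smul_comm a m', smul_comm a m]
      have h6 : (0 : ExteriorAlgebra (MonoidAlgebra ℤ G) (inv U D)) = m' • 0 + m • 0 := by
        rw [smul_zero, smul_zero, add_zero]
      rw [h5, h6]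
      exact ((h3 a ha).nsmul m').add ((h3' a ha).nsmul m)
    · rw [map_add, map_nsmul, map_nsmul, h4, h4', smul_smul, smul_smul, smul_add]
      congr 2
      · ring
      · ring
  neg_mem' := by
    intro θ hθ
    change Realised art ι ℓ Θ D θ at hθ
    show Realised art ι ℓ Θ D (-θ)
    rw [realised_iff] at hθ ⊢
    obtain ⟨m, y, h1, h2, h3, h4⟩ := hθ
    refine ⟨m, -y, h1, fun φ hφ => ?_, fun a ha => ?_, ?_⟩
    · obtain ⟨ε, e1, e2⟩ := h2 φ hφ
      refine ⟨-ε, neg_mem e1, ?_⟩
      rw [NegMemClass.coe_neg, map_neg, map_neg, smul_neg]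
      exact e2.neg
    · rw [NegMemClass.coe_neg, smul_neg]
      have := (h3 a ha).neg
      rwa [neg_zero] at this
    · rw [map_neg, h4, smul_neg]

theorem mem_grp {D : Subgroup G} {θ : A} : θ ∈ grp art ι ℓ Θ D ↔ Realised art ι ℓ Θ D θ := Iff.rfl

theorem grp_mono {D D' : Subgroup G} (h : D ≤ D') : grp art ι ℓ Θ D' ≤ grp art ι ℓ Θ D := by
  intro θ hθ
  rw [mem_grp, realised_iff] at hθ ⊢
  obtain ⟨m, y, h1, h2, h3, h4⟩ := hθ
  obtain ⟨c, hc0, hc⟩ := card_split h
  obtain ⟨w, hw⟩ := W_dvd art h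
  have h6 : m * c ^ (r - 1) * Nat.card D ^ (r - 1) = m * Nat.card D' ^ (r - 1) := by
    rw [hc, mul_pow]; ring
  refine ⟨m * c ^ (r - 1), w • exteriorPower.map r (Submodule.inclusion (inv_anti h)) y,
    Nat.mul_pos h1 (pow_pos hc0 _), fun φ hφ => ?_, fun a ha => ?_, ?_⟩
  · obtain ⟨ε, e1, e2⟩ := h2 (φ.map fun d => d ∘ₗ Submodule.inclusion (inv_anti h))
      (by rw [List.length_map]; exact hφ)
    refine ⟨w • Submodule.inclusion (inv_anti h) ε, ?_, ?_⟩
    · have := abSub_mono art ι hw e1
      rw [Submodule.coe_smul_of_tower]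
      exact this
    · have h7 := (e2.map
        ((ExteriorAlgebra.map (Submodule.inclusion (inv_anti h))).toLinearMap.toAddMonoidHom)).nsmul w
      have h8 : ExteriorAlgebra.ι (MonoidAlgebra ℤ G) (Submodule.inclusion (inv_anti h) ε) =
          ExteriorAlgebra.map (Submodule.inclusion (inv_anti h)) (ExteriorAlgebra.ι (MonoidAlgebra ℤ G) ε) :=
        (ExteriorAlgebra.map_apply_ι _ _).symm
      have a1 : ev φ (w • exteriorPower.map r (Submodule.inclusion (inv_anti h)) y :
          ⋀[MonoidAlgebra ℤ G]^r (inv U D)) = w • ExteriorAlgebra.map (Submodule.inclusion (inv_anti h))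
            (ev (φ.map fun d => d ∘ₗ Submodule.inclusion (inv_anti h)) y) := by
        rw [Submodule.coe_smul_of_tower, coe_map, map_nsmul, ev_map]
      have a2 : (m * c ^ (r - 1) * Nat.card D ^ (r - 1)) • ExteriorAlgebra.ι (MonoidAlgebra ℤ G)
          (w • Submodule.inclusion (inv_anti h) ε) =
          w • ExteriorAlgebra.map (Submodule.inclusion (inv_anti h))
            ((m * Nat.card D' ^ (r - 1)) • ExteriorAlgebra.ι (MonoidAlgebra ℤ G) ε) := by
        rw [map_nsmul, h8, h6, map_nsmul, smul_comm]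
      rw [a1, a2]
      exact h7
  · obtain ⟨b, hb⟩ := nrm_dvd h
    have h5 : a • (nrm D' • Θ) = 0 := by
      rw [hb, smul_smul, mul_comm (nrm D) b, ← mul_assoc, mul_comm a b, mul_assoc, ← smul_smul,
        ← smul_smul, ha, smul_zero]
    have h7 := ((h3 a h5).map
      ((ExteriorAlgebra.map (Submodule.inclusion (inv_anti (U := U) h))).toLinearMap.toAddMonoidHom)).nsmul w
    have a1 : a • ((w • exteriorPower.map r (Submodule.inclusion (inv_anti h)) y :
        ⋀[MonoidAlgebra ℤ G]^r (inv U D)) : ExteriorAlgebra (MonoidAlgebra ℤ G) (inv U D)) =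
        w • ExteriorAlgebra.map (Submodule.inclusion (inv_anti h))
          (a • (y : ExteriorAlgebra (MonoidAlgebra ℤ G) (inv U D'))) := by
      rw [Submodule.coe_smul_of_tower, coe_map, smul_comm, map_smul]
    have a2 : (0 : ExteriorAlgebra (MonoidAlgebra ℤ G) (inv U D)) =
        w • ExteriorAlgebra.map (Submodule.inclusion (inv_anti (U := U) h)) 0 := by
      rw [map_zero, smul_zero]
    rw [a1, a2]
    exact h7
  · rw [map_nsmul, reg_map, h6, hw]
    have h7 : reg (fun i => (ℓ i ∘ₗ (inv U D).subtype) ∘ₗ Submodule.inclusion (inv_anti h)) y =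
        (m * Nat.card D' ^ (r - 1) * W (fld art D')) • θ := h4
    rw [h7, smul_smul]
    congr 1
    ring

end

/-! ### The induction -/

section
variable {A : Type} [AddCommGroup A]

/-- the elements which are in `J` up to a factor prime to `p` -/
def atSub (p : ℕ) (hp : p.Prime) (J : AddSubgroup A) : AddSubgroup A where
  carrier := {θ | ∃ k : ℕ, ¬ p ∣ k ∧ k • θ ∈ J}
  zero_mem' := ⟨1, hp.one_lt.ne' ∘ Nat.dvd_one.1, by rw [smul_zero]; exact zero_mem _⟩
  add_mem' := by
    rintro θ θ' ⟨k, h1, h2⟩ ⟨k', h1', h2'⟩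
    refine ⟨k * k', fun hd => ?_, ?_⟩
    · rcases (Nat.Prime.dvd_mul hp).1 hd with h | h
      · exact h1 h
      · exact h1' h
    · have e : (k * k') • (θ + θ') = k' • (k • θ) + k • (k' • θ') := by
        rw [smul_add, smul_smul, smul_smul, mul_comm k' k]
      rw [e]
      exact add_mem (nsmul_mem h2 _) (nsmul_mem h2' _)
  neg_mem' := by
    rintro θ ⟨k, h1, h2⟩
    exact ⟨k, h1, by rw [smul_neg]; exact neg_mem h2⟩

theorem mem_atSub {p : ℕ} {hp : p.Prime} {J : AddSubgroup A} {θ : A} :
    θ ∈ atSub p hp J ↔ ∃ k : ℕ, ¬ p ∣ k ∧ k • θ ∈ J := Iff.rfl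

theorem atSub_mono {p : ℕ} (hp : p.Prime) {J J' : AddSubgroup A} (h : J ≤ J') :
    atSub p hp J ≤ atSub p hp J' := by
  rintro θ ⟨k, h1, h2⟩
  exact ⟨k, h1, h h2⟩

theorem le_atSub {p : ℕ} (hp : p.Prime) (J : AddSubgroup A) : J ≤ atSub p hp J := by
  intro θ h
  exact ⟨1, hp.one_lt.ne' ∘ Nat.dvd_one.1, by rwa [one_smul]⟩

theorem atSub_div {p : ℕ} {hp : p.Prime} {J : AddSubgroup A} {θ : A} {q : ℕ} (hq : ¬ p ∣ q)
    (h : q • θ ∈ atSub p hp J) : θ ∈ atSub p hp J := by
  obtain ⟨k, h1, h2⟩ := h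
  refine ⟨k * q, fun hd => ?_, by rw [mul_smul]; exact h2⟩
  rcases (Nat.Prime.dvd_mul hp).1 hd with h | h
  · exact h1 h
  · exact hq h

variable {G : Type} [CommGroup G] [Fintype G] [Module (MonoidAlgebra ℤ G) A]

omit [AddCommGroup A] [Module (MonoidAlgebra ℤ G) A] in
/-- induction on the index -/
theorem index_induction (P : Subgroup G → Prop) (h : ∀ D : Subgroup G, (∀ D' : Subgroup G, D < D' → P D') → P D) :
    ∀ D : Subgroup G, P D := by
  have key : ∀ n : ℕ, ∀ D : Subgroup G, Nat.card G - Nat.card D = n → P D := by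
    intro n
    induction n using Nat.strong_induction_on with
    | _ n ih =>
      intro D hD
      refine h D fun D' hD' => ?_
      have h4 : Nat.card D < Nat.card D' := by
        have h5 : Nat.card D ≤ Nat.card D' :=
          Nat.le_of_dvd Nat.card_pos (Subgroup.card_dvd_of_le hD'.le)
        rcases h5.lt_or_eq with h6 | h6
        · exact h6
        · exact absurd (Subgroup.eq_of_le_of_card_ge hD'.le h6.ge) hD'.ne
      have h5 : Nat.card D' ≤ Nat.card G :=
        Nat.le_of_dvd Nat.card_pos (Subgroup.card_subgroup_dvd_card D')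
      exact ih (Nat.card G - Nat.card D') (by omega) D' rfl
  exact fun D => key _ D rfl

theorem up (Θ : A) (J : Subgroup G → AddSubgroup A) (hJ : ∀ D D' : Subgroup G, D ≤ D' → J D' ≤ J D) (p : ℕ)
    (hp : p.Prime) (S : Subgroup G → Prop) (hS : ∀ D : Subgroup G, S D → nrm D • Θ ∈ atSub p hp (J D))
    (hS' : ∀ D : Subgroup G, ¬ S D → ∃ q, q ≠ p ∧ NoncyclicAt D q) :
    ∀ D : Subgroup G, nrm D • Θ ∈ atSub p hp (J D) := by
  refine index_induction _ fun D ih => ?_
  by_cases hc : S D
  · exact hS D hc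
  · obtain ⟨q, hqp, E, hE⟩ := hS' D hc
    have h4 := norm_relation Θ hE (atSub p hp (J D)) 1 fun D' hD' _ _ => by
      rw [one_smul]
      exact atSub_mono hp (hJ D D' hD'.le) (ih D' hD')
    rw [one_mul] at h4
    exact atSub_div (fun hd => hqp ((Nat.prime_dvd_prime_iff_eq hp hE.1).1 hd).symm) h4

open Classical in
/-- the exponent of `p` in the factor -/
noncomputable def expo (p : ℕ) (D : Subgroup G) : ℕ :=
  if NoncyclicAt D p then D.index.factorization p - 1 else 0

omit [Fintype G] in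
theorem expo_le (p : ℕ) (D : Subgroup G) : expo p D ≤ D.index.factorization p - 1 := by
  unfold expo
  split_ifs
  · exact le_rfl
  · exact Nat.zero_le _

theorem index_split {D D' : Subgroup G} (h : D ≤ D') :
    D.index = D'.index * (Nat.card D' / Nat.card D) := by
  obtain ⟨c, hc0, hc⟩ := card_split h
  have h1 := D.card_mul_index
  have h2 := D'.card_mul_index
  rw [hc, Nat.mul_div_cancel _ Nat.card_pos]
  rw [hc, ← h1] at h2
  have h3 : 0 < Nat.card D := Nat.card_pos
  refine Nat.eq_of_mul_eq_mul_left h3 ?_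
  rw [← h2]
  ring

theorem index_ne (D : Subgroup G) : D.index ≠ 0 := Subgroup.index_ne_zero_of_finite

theorem fact_lt {D D' : Subgroup G} (h : D ≤ D') {p : ℕ} (hp : p.Prime) {k : ℕ}
    (hd : p ^ k ∣ Nat.card D' / Nat.card D) :
    D'.index.factorization p + k ≤ D.index.factorization p := by
  have h1 := index_split h
  have h2 : Nat.card D' / Nat.card D ≠ 0 := by
    intro h0
    rw [h0, mul_zero] at h1
    exact index_ne D h1
  rw [h1, Nat.factorization_mul (index_ne D') h2, Finsupp.add_apply]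
  have h3 := (Nat.Prime.pow_dvd_iff_le_factorization hp h2).1 hd
  omega

theorem up_cyclic (Θ : A) (J : Subgroup G → AddSubgroup A) (hJ : ∀ D D' : Subgroup G, D ≤ D' → J D' ≤ J D)
    (p : ℕ) (hp : p.Prime) (hS : ∀ D : Subgroup G, IsCyclic (G ⧸ D) → nrm D • Θ ∈ J D) :
    ∀ D : Subgroup G, p ^ expo p D • (nrm D • Θ) ∈ atSub p hp (J D) := by
  refine index_induction _ fun D ih => ?_
  by_cases h1 : NoncyclicAt D p
  · obtain ⟨E, hE⟩ := h1
    have h2 : 2 ≤ D.index.factorization p := by
      have h3 := fact_lt hE.2.1 hp (k := 2)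
        (by rw [hE.2.2.1, Nat.mul_div_cancel _ Nat.card_pos])
      omega
    have h4 := norm_relation Θ hE (atSub p hp (J D)) (p ^ (D.index.factorization p - 2))
      fun D' hD' _ hdvd => by
        have h5 := atSub_mono hp (hJ D D' hD'.le) (ih D' hD')
        have h6 : p ^ expo p D' ∣ p ^ (D.index.factorization p - 2) := by
          refine pow_dvd_pow p ?_
          have h7 := expo_le p D'
          have h8 := fact_lt hD'.le hp (k := 1) (by rw [pow_one]; exact hdvd)
          omega
        obtain ⟨b, hb⟩ := h6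
        rw [hb, mul_comm, mul_smul]
        exact nsmul_mem h5 b
    have h5 : p ^ (D.index.factorization p - 2) * p = p ^ expo p D := by
      have h6 : expo p D = D.index.factorization p - 1 := by
        unfold expo
        rw [if_pos ⟨E, hE⟩]
      rw [h6, ← pow_succ]
      congr 1
      omega
    rw [h5] at h4
    exact h4
  · have h2 : expo p D = 0 := by
      unfold expo
      rw [if_neg h1]
    rw [h2, pow_zero, one_smul]
    by_cases h3 : ∃ q, NoncyclicAt D q
    · obtain ⟨q, E, hE⟩ := h3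
      have hqp : q ≠ p := by
        rintro rfl
        exact h1 ⟨E, hE⟩
      have h4 := norm_relation Θ hE (atSub p hp (J D)) 1 fun D' hD' _ _ => by
        have h5 := ih D' hD'
        have h6 : expo p D' = 0 := by
          unfold expo
          rw [if_neg]
          exact fun h7 => h1 (noncyclicAt_mono hD'.le hp h7)
        rw [h6, pow_zero, one_smul] at h5
        rw [one_smul]
        exact atSub_mono hp (hJ D D' hD'.le) h5
      rw [one_mul] at h4
      exact atSub_div (fun hd => hqp ((Nat.prime_dvd_prime_iff_eq hp hE.1).1 hd).symm) h4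
    · push Not at h3
      exact le_atSub hp _ (hS D (isCyclic_quotient h3))

end

/-- **The conjecture of Popescu and the non-cyclic Sylow subgroups.** -/
theorem result (K : Type) [Field K] [NumberField K] (H : IntermediateField K (AlgebraicClosure K))
    [FiniteDimensional K H] [IsGalois K H] (G : Type) [CommGroup G] [Fintype G] (art : G ≃* Gal(H/K))
    (U : Type) [AddCommGroup U] [Module (MonoidAlgebra ℤ G) U] (ι : U →+ Additive Hˣ)
    (A : Type) [CommRing A] [Algebra (MonoidAlgebra ℤ G) A] (r : ℕ)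
    (ℓ : Fin r → (U →ₗ[MonoidAlgebra ℤ G] A)) (Θ : A) :
    (∀ (D E : Subgroup G) (q : ℕ), IsSquare D E q →
      (∀ D' : Subgroup G, D < D' → D' ≤ E → Popescu art ι ℓ Θ D') →
      Realised art ι ℓ Θ D (q • (nrm D • Θ))) ∧
    (∀ D : Subgroup G, Popescu art ι ℓ Θ D ↔ ∀ p : ℕ, p.Prime → PopescuAt p art ι ℓ Θ D) ∧
    (∀ p : ℕ, p.Prime → (∀ D : Subgroup G, CyclicOutside p D → PopescuAt p art ι ℓ Θ D) →
      ∀ D : Subgroup G, PopescuAt p art ι ℓ Θ D) ∧
    ((∀ D : Subgroup G, OneNoncyclic D → Popescu art ι ℓ Θ D) → ∀ D : Subgroup G, Popescu art ι ℓ Θ D) ∧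
    ((∀ D : Subgroup G, IsCyclic (G ⧸ D) → Popescu art ι ℓ Θ D) → ∀ (D : Subgroup G) (c : ℕ),
      (∀ p : ℕ, NoncyclicAt D p → p ^ (D.index.factorization p - 1) ∣ c) →
      Realised art ι ℓ Θ D (c • (nrm D • Θ))) := by
  have hJ : ∀ D D' : Subgroup G, D ≤ D' → grp art ι ℓ Θ D' ≤ grp art ι ℓ Θ D :=
    fun D D' h => grp_mono art ι ℓ Θ h
  have part2 : ∀ D : Subgroup G, Popescu art ι ℓ Θ D ↔ ∀ p : ℕ, p.Prime → PopescuAt p art ι ℓ Θ D := by
    intro D
    constructor
    · intro h p hp
      exact le_atSub hp (grp art ι ℓ Θ D) h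
    · intro h
      exact bezout (grp art ι ℓ Θ D) h
  refine ⟨?_, part2, ?_, ?_, ?_⟩
  · intro D E q hE hs
    have h := norm_relation Θ hE (grp art ι ℓ Θ D) 1 fun D' hD' h2 _ => by
      rw [one_smul]
      exact hJ D D' hD'.le (hs D' hD' h2)
    rw [one_mul] at h
    exact h
  · intro p hp h
    refine up Θ (grp art ι ℓ Θ) hJ p hp (CyclicOutside p) h fun D hD => ?_
    unfold CyclicOutside at hD
    push Not at hD
    obtain ⟨q, h1, h2⟩ := hD
    exact ⟨q, h2, h1⟩
  · intro h D
    rw [part2]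
    intro p hp
    refine up Θ (grp art ι ℓ Θ) hJ p hp OneNoncyclic (fun D hD => (part2 D).1 (h D hD) p hp)
      (fun D hD => ?_) D
    unfold OneNoncyclic at hD
    push Not at hD
    obtain ⟨q, q', h1, h2, h3⟩ := hD
    by_cases hq : q = p
    · exact ⟨q', fun h4 => h3 (hq.trans h4.symm), h2⟩
    · exact ⟨q, hq, h1⟩
  · intro h D c hc
    refine bezout (grp art ι ℓ Θ D) fun p hp => ?_
    have h1 := up_cyclic Θ (grp art ι ℓ Θ) hJ p hp h D
    have h2 : p ^ expo p D ∣ c := by
      unfold expo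
      split_ifs with h3
      · exact hc p h3
      · rw [pow_zero]; exact one_dvd c
    obtain ⟨b, hb⟩ := h2
    have h3 : c • (nrm D • Θ) ∈ atSub p hp (grp art ι ℓ Θ D) := by
      rw [hb, mul_comm, mul_smul]
      exact nsmul_mem h1 b
    exact h3

end Pool.Agent.Results.MP_1322f0_nt.TwoNoncyclicSylows
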